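import Pool.Agent.Helper68.T3.GoalsA
import Pool.Agent.Helper60.T3.Defs

/-!
# Project T3, theorem P3 (MP_a41896_nt), module T: Taylor expansions on the surface, local and global estimate, theorem P3
-/

set_option autoImplicit false

open MvPolynomial

namespace Pool.Agent.Helper68.T3

open WeierstrassCurve Height
open Pool.Agent.Helper29.BL Pool.Agent.Helper92.Ru Pool.Agent.Helper42.SG
open Pool.Agent.Helper68.VN
open Pool.Agent.Helper77.SGC (N0)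
open Pool.Agent.Helper5.UN (CodimGT cH)
open Pool.Agent.Helper60.HC (Lo Al rhs nrs)
open Pool.Agent.Helper60.T3 (NN)

noncomputable section

/-! ## Taylor expansions -/

/-- **TAYP** (the square root of `B(ξ + 4ψ²t)` for a series `t` without constant term). Hypothesis allowed: FRPS.
PROOF. The lemma `tay_point` of `Pool/Agent/Helper65/SG/Tay.lean` is the case `t = X i`; its proof works for every series `t` with constant coefficient `0`: replace `MvPowerSeries.X i` by `t` in the definition of `g` and `nps_X hr i` (the norm of `X i` is `r i`) by the hypothesis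
`NPS v r t (1 / (c2 v ^ 10 * bet W v * Mv v ξ ^ 2))`; it uses `sqrt_series`, `tay_est` of the same file. `B v := c2 v ^ 10 * bet W v` (a place constant: `PlC_BX` in `Pool/Agent/Helper65/VN/TAYX.lean`). -/
def TAYP : Prop :=
  ∀ (K : Type) [Field K] [NumberField K] (W : Affine K),
    ∃ B : AbsoluteValue K ℝ → ℝ, PlC B ∧ ∀ (τ : Type) (ξ ψ : K) (t : MvPowerSeries τ K),
      ψ ^ 2 = Bf W ξ → MvPowerSeries.constantCoeff t = 0 →
      ∃ P : MvPowerSeries τ K, P ^ 2 = Bf (W.map (algebraMap K (MvPowerSeries τ K)))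
          (MvPowerSeries.C ξ + MvPowerSeries.C (4 * ψ ^ 2) * t) ∧
        MvPowerSeries.constantCoeff P = ψ ∧
        ∀ (v : AbsoluteValue K ℝ) (r : τ → ℝ), (∀ i, 0 < r i) →
          NPS v r t (1 / (B v * Mv v ξ ^ 2)) →
          NPS v r (MvPowerSeries.C ξ + MvPowerSeries.C (4 * ψ ^ 2) * t) (B v * Mv v ξ) ∧
          NPS v r P (B v * Mv v ξ ^ 2)

/-- **TAYF3** (the centre in the Taylor frame of one block). Hypothesis allowed: FRPS.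
PROOF. As TAYF (landed: `Pool/Agent/Helper73/VN/TAYF.lean`): there `ξ`, `X` are families over `Fin n` and the statement is about one block `j`; the radii enter only through `r (j, i) ≤ ρ / (B' M_i²)` for the variables of the block. -/
def TAYF3 : Prop :=
  ∀ (K : Type) [Field K] [NumberField K] (σ : Type) [Fintype σ] [DecidableEq σ]
    (W : σ → Affine K) (J : Type) [Fintype J] (D : ℕ) (f : J → MvPolynomial σ K),
    (∀ j i, degreeOf i (f j) ≤ D) → ∀ B : AbsoluteValue K ℝ → ℝ, PlC B →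
    ∃ B' : AbsoluteValue K ℝ → ℝ, PlC B' ∧ (∀ v, B v ≤ B' v) ∧
    ∀ (τ : Type) (ι : σ → τ) (ξ ψ : σ → K) (X : σ → MvPowerSeries τ K),
      (∀ i, X i = MvPowerSeries.C (ξ i) +
        MvPowerSeries.C (4 * ψ i ^ 2) * MvPowerSeries.X (ι i)) →
      (∀ i, ψ i ^ 2 = Bf (W i) (ξ i)) → (∃ k, eval ξ (f k) ≠ 0) →
      ∀ (v : AbsoluteValue K ℝ) (r : τ → ℝ), (∀ t, 0 < r t) →
      (∀ i, r (ι i) ≤ rho D f v ξ / (B' v * Mv v (ξ i) ^ 2)) → ∀ k : J,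
      NPS v r (aeval X (f k)) (rho D f v ξ * (B' v * (∏ i, Mv v (ξ i)) ^ D))

/-- **FXP** (fixed points in the power series ring). No hypotheses.
PROOF. `y_0 = 0`, `y_(k+1) = Φ y_k`; all have constant coefficient `0`. By the contraction property and induction on `k`: `coeff α (y_(k+1)) = coeff α (y_k)` for `α.degree ≤ k` (`k = 0`: `α = 0`, both `0`; step: `y_k`, `y_(k-1)` agree in degrees `< k`, so `y_(k+1)`, `y_k` agree in degrees `< k+1`). So `coeff α (y_k) = coeff α (y_(|α|))` for all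
`k ≥ |α|`. `y := (α ↦ coeff α (y_(|α|)))`. For every `k`, `y` and `y_k` agree in degrees `≤ k`, so `Φ y` and `Φ y_k = y_(k+1)` agree in degrees `≤ k + 1`: `Φ y = y`. Norm: `NPS v r (y_k) T` for all `k` (`NPS v r 0 T` as `0 ≤ T`), and every finite set of coefficients of `y` consists of coefficients of some `y_k`. -/
def FXP : Prop :=
  ∀ (K : Type) [Field K] (τ : Type) (Φ : MvPowerSeries τ K → MvPowerSeries τ K),
    (∀ y, MvPowerSeries.constantCoeff y = 0 → MvPowerSeries.constantCoeff (Φ y) = 0) →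
    (∀ (k : ℕ) (y y' : MvPowerSeries τ K), MvPowerSeries.constantCoeff y = 0 →
      MvPowerSeries.constantCoeff y' = 0 →
      (∀ α : τ →₀ ℕ, α.degree < k → MvPowerSeries.coeff α y = MvPowerSeries.coeff α y') →
      ∀ α : τ →₀ ℕ, α.degree < k + 1 →
        MvPowerSeries.coeff α (Φ y) = MvPowerSeries.coeff α (Φ y')) →
    ∃ y : MvPowerSeries τ K, MvPowerSeries.constantCoeff y = 0 ∧ Φ y = y ∧
      ∀ (v : AbsoluteValue K ℝ) (r : τ → ℝ) (T : ℝ), (∀ t, 0 < r t) → 0 ≤ T →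
        (∀ y, MvPowerSeries.constantCoeff y = 0 → NPS v r y T → NPS v r (Φ y) T) → NPS v r y T

/-- **SHN** (norm of the shifted polynomial, first coefficients). Hypothesis allowed: FRPO (`Helper65.SG`).
PROOF. The frame `NPol v` (radii `1`; FRPO: it is a norm frame, `NPol v (X i) 1`, coefficients are `≤` the norm). `shiftP ξ g = ∑_(s ∈ supp g) coeff s g * ∏ (X_i + C ξ_i)^(s_i)`; `NPol v (X_i + C ξ_i) (cst v 2 * Mv v (ξ i))`, at most `(D0 + 1)^|σ|` monomials, so `B v := cst v ((D0+1)^|σ|) * (cst v 2)^(D0 |σ|)`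
(`Mv ≥ 1`, `s_i ≤ D0`). The expansion `aeval (C ξ + U) g = aeval U (shiftP ξ g)` (`aeval` of `aeval`) is the sum over the support. Constant coefficient: `eval 0 (shiftP ξ g) = eval ξ g`. Coefficient of `X_i`: it is `eval 0 (pderiv i (shiftP ξ g)) = eval ξ (pderiv i g)` (`pderiv` and the shift commute; or check on monomials). -/
def SHN : Prop :=
  ∀ (K : Type) [Field K] [NumberField K] (σ : Type) [Fintype σ] [DecidableEq σ] (D0 : ℕ),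
    ∃ B : AbsoluteValue K ℝ → ℝ, PlC B ∧ ∀ (g : MvPolynomial σ K) (ξ : σ → K),
      (∀ i, g.degreeOf i ≤ D0) →
      coeff 0 (shiftP ξ g) = eval ξ g ∧
      (∀ i, coeff (Finsupp.single i 1) (shiftP ξ g) = eval ξ (pderiv i g)) ∧
      ∀ v : AbsoluteValue K ℝ,
        Pool.Agent.Helper65.SG.NPol v (shiftP ξ g) (B v * gsup v g * (∏ i, Mv v (ξ i)) ^ D0)

/-- **IFT** (implicit function theorem with norms). Hypotheses allowed: FXP, SHN, FRPS, FRPT.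
PROOF. `B` of SHN. Let `c_s = coeff s (shiftP ξ g)`, `U_i = u_i` (`i ≠ i'`), `U_(i') = κ y`; `aeval (C ξ + U) g = ∑_s c_s ∏ U_i^(s_i)`. `c_0 = 0`, `c_(e_(i')) κ = δ`. So `g(ξ + U) = 0` is equivalent to `y = Φ y`, `Φ y := - δ⁻¹ ∑_(s ≠ 0, e_(i')) c_s ∏_(i ≠ i') u_i^(s_i) (κ y)^(s_(i'))`.
CONTRACTION: if `y, y'` have no constant coefficient and agree in degrees `< k` then `(κ y)^b - (κ y')^b = κ (y - y') * (∑ ..)`; a term with `s` such that `s_(i') ≥ 2`, or `s_(i') = 1` and some `s_i ≥ 1`, is `(y - y')` times a series without constant coefficient (`κ y`, `u_i` have none), so it vanishes in degrees `< k + 1`; the terms with `s_(i') = 0` do not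
depend on `y`. (Use the ideal/order: `coeff α (a * b) = ∑ ..` over the antidiagonal; a lemma: if `a` vanishes in degrees `< k` and `b` has no constant coefficient then `a * b` vanishes in degrees `< k + 1`.) FXP gives `y`.
NORM: `Γ := B v * gsup v g * (∏ Mv)^D0 > 0`. First assertion: `v δ = v κ * v (c_(e_i')) ≤ v κ * Γ` (SHN and coefficient `≤` norm). `T := v δ / (Γ S²)`; `v δ ≤ S Γ`, so `S T = v δ/(Γ S) ≤ 1` and `v δ²/(Γ² S²) ≤ 1`. If `NPS y T` then `NPS (κ y) (S T)` and, for `s ≠ 0, e_(i')`, `∏ U^s` has norm `≤ m0 := max ((S T)², v δ²/(Γ²S²)) = v δ²/(Γ² S²)`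
(if some `s_i ≥ 1`, `i ≠ i'`: that factor is `≤ v δ²/(Γ²S²)` and the others are `≤ 1`; otherwise `s_(i') ≥ 2`: `≤ (S T)²`). So `∑_s c_s ∏ U^s` has norm `≤ Γ * m0` (nonarchimedean: `max_s |c_s| ≤ Γ`; archimedean: `∑_s |c_s| ≤ Γ`, from `NPol`), and `Φ y` has norm `≤ Γ m0 / v δ = v δ/(Γ S²) = T`. -/
def IFT : Prop :=
  ∀ (K : Type) [Field K] [NumberField K] (σ : Type) [Fintype σ] [DecidableEq σ] (D0 : ℕ),
    ∃ B : AbsoluteValue K ℝ → ℝ, PlC B ∧ ∀ (τ : Type) (g : MvPolynomial σ K) (ξ : σ → K)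
      (i' : σ) (κ : K) (u : σ → MvPowerSeries τ K), (∀ i, g.degreeOf i ≤ D0) →
      eval ξ g = 0 → κ * eval ξ (pderiv i' g) ≠ 0 →
      (∀ i, MvPowerSeries.constantCoeff (u i) = 0) →
      ∃ y : MvPowerSeries τ K, MvPowerSeries.constantCoeff y = 0 ∧
        aeval (fun i => MvPowerSeries.C (ξ i) + if i = i' then MvPowerSeries.C κ * y else u i)
          g = 0 ∧
        (∀ v : AbsoluteValue K ℝ, v (κ * eval ξ (pderiv i' g)) ≤
          v κ * (B v * gsup v g * (∏ i, Mv v (ξ i)) ^ D0)) ∧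
        ∀ (v : AbsoluteValue K ℝ) (r : τ → ℝ) (S : ℝ), (∀ t, 0 < r t) → 1 ≤ S → v κ ≤ S →
          (∀ i, i ≠ i' → NPS v r (u i) (v (κ * eval ξ (pderiv i' g)) ^ 2 /
            ((B v * gsup v g * (∏ i, Mv v (ξ i)) ^ D0) ^ 2 * S ^ 2))) →
          NPS v r y (v (κ * eval ξ (pderiv i' g)) /
            (B v * gsup v g * (∏ i, Mv v (ξ i)) ^ D0 * S ^ 2))

/-- **TAYW3** (the Taylor frame of P3). Hypotheses allowed: TAYX, TAYP, TAYF3, IFT, FRPS.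
PROOF. `E := 2 D0 + 9`. `X, Ψ` of TAYX for `n = 2` (`TayB`), `B_X` its constant; in the block `1` keep `X 1 i`, `Ψ 1 i` for `i ≠ i'` and replace those of `i'`: IFT for `τ = Fin 2 × σ`, `ξ = ξ 1`, `κ = 4 ψ(1,i')²`, `u i = C (4 ψ(1,i)²) * X (1, i)` gives `y`; `X' 1 i' := C (ξ 1 i') + C κ * y`, and `Ψ' 1 i'` := the series `P` of TAYP for the curve `W i'`, `t = y`
(`κ ≠ 0`, `eval (ξ 1) (pderiv i' g) ≠ 0`). `TayW` is clear. (`B(v)` below: place constants.) NORMS, `v`, `r = rad3 ..`: positive (`gsup v g > 0` because `g ≠ 0`, as its derivative is not zero; `rho > 0`). `M_i = Mv v (ξ 1 i)`, `P = ∏ M_i`. `v(4 ψ_i²) ≤ B₁ M_i³` (`tay_est` in `Pool/Agent/Helper65/SG/Tay.lean`, fourth inequality, `ψ² = Bf W ξ`). `S := B₃ M_(i')³` with `B₃ := B₁ * B_P`,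
`Γ = B₂ gsup P^D0` (`B₂` = the `B` of IFT). `NPS v r (u i) (B₁ M_i³ r(1,i))` and `B₁ M_i³ r(1,i) = B₁ M_i³ (v δ)² / (b gsup² P^(2D0+9)) ≤ (v δ)² / (Γ² S²)` if `b ≥ B₁ B₂² B₃²`. IFT: `v δ ≤ S Γ` and `NPS y (v δ / (Γ S²))`, `v δ/(Γ S²) ≤ 1/S ≤ 1/(B_P M_(i')²)`: TAYP applies.
For TAYX (all `h`): `r(1,i) ≤ 1/(B_X M_i²)`: `(v δ)² ≤ (S Γ)²`, so `r(1,i) ≤ (B₂B₃)²/(b P³) ≤ 1/(B_X M_i²)` if `b ≥ (B₂B₃)² B_X`; `r(0,i) ≤ 1/(b M²)`. The centre in the block `0`: TAYF3 with `ι i = (0, i)`; `ρ (B' P^D) ≤ ρ ∏ (B' M_i)^D` as in TAYN (`Pool/Agent/Helper95/VN/TAYN.lean`; `1 ≤ D`, `σ` not empty).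
The centre in the block `1`: `NPS (X 1 i) (B' M_i)` gives `NPS (aeval (X 1) (f k)) (B_f P'^D)` with `P' = ∏ B' M_i` (trivial estimate in the norm frame: sum over the monomials of `f k`; `frame_sum`, `frame_pow` in `TAYF.lean`), `B_f` a place constant which depends on `f` only, and `B_f ∏ (B' M_i)^D ≤ ∏ (B'' M_i)^D` for `B'' = B_f B'`. Take `b = B''` = one large place constant
(all bounds are monotone in it; `rad3` decreases with `b`; note that the constants `B'` of the frame may be smaller than `b`). -/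
def TAYW3 : Prop :=
  ∀ (K : Type) [Field K] [NumberField K] (σ : Type) [Fintype σ] [DecidableEq σ] [Nonempty σ]
    (W : σ → Affine K) (J : Type) [Fintype J] (D : ℕ) (f : J → MvPolynomial σ K) (D0 : ℕ),
    1 ≤ D → (∀ j i, degreeOf i (f j) ≤ D) →
    ∃ B' : AbsoluteValue K ℝ → ℝ, PlC B' ∧
    ∀ (ξ ψ : Fin 2 → σ → K) (g : MvPolynomial σ K) (i' : σ),
      (∀ j i, ψ j i ^ 2 = Bf (W i) (ξ j i) ∧ ψ j i ≠ 0) → (∃ k, eval (ξ 0) (f k) ≠ 0) →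
      (∀ i, g.degreeOf i ≤ D0) → eval (ξ 1) g = 0 → eval (ξ 1) (pderiv i' g) ≠ 0 →
      ∃ X Ψ : Fin 2 → σ → MvPowerSeries (Fin 2 × σ) K, TayW W ξ ψ i' g X Ψ ∧
        ∀ v : AbsoluteValue K ℝ, (0 < rho D f v (ξ 0) ∧ rho D f v (ξ 0) ≤ 1) ∧
          (∀ h, 0 < rad3 D f (2 * D0 + 9) g i' (B' v) v ξ ψ h) ∧
          (∀ j i, NPS v (rad3 D f (2 * D0 + 9) g i' (B' v) v ξ ψ) (X j i)
              (B' v * Mv v (ξ j i)) ∧
            NPS v (rad3 D f (2 * D0 + 9) g i' (B' v) v ξ ψ) (Ψ j i)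
              (B' v * Mv v (ξ j i) ^ 2)) ∧
          (∀ k, NPS v (rad3 D f (2 * D0 + 9) g i' (B' v) v ξ ψ) (aeval (X 0) (f k))
            (rho D f v (ξ 0) * ∏ i, (B' v * Mv v (ξ 0 i)) ^ D)) ∧
          ∀ k, NPS v (rad3 D f (2 * D0 + 9) g i' (B' v) v ξ ψ) (aeval (X 1) (f k))
            (∏ i, (B' v * Mv v (ξ 1 i)) ^ D)

/-! ## Change of laws, the local estimate -/

/-- **LAW3** (change of the laws at a minimal coefficient). Hypotheses allowed: RPOL, MINC (`Helper42.SG`).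
PROOF. As LAWB (landed: `Pool/Agent/Helper55/VN/LAWB.lean`), which uses of `TayB` only the curve equations and the constant coefficients (`TayC`; the constant coefficient of `X j i` is `cX`). -/
def LAW3 : Prop :=
  ∀ (K : Type) [Field K] [NumberField K] (σ : Type) [Fintype σ] [DecidableEq σ]
    (W : σ → Affine K) (n M δ : ℕ) (e : Fin n → ℕ) (c : Ix σ n M δ e → K)
    (ξ ψ ω : Fin n → σ → K) (x0 ψ0 : σ → K) (X Ψ : Fin n → σ → MvPowerSeries (Fin n × σ) K)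
    (d : Fin n × σ → ℕ) (α : Fin n × σ →₀ ℕ) (lam : Fin n → σ → Bool),
    TayC W ξ ψ X Ψ → (∀ i, ψ0 i ^ 2 = Bf (W i) (x0 i)) → (∀ h, 1 ≤ d h) →
    (∀ j i, (lawP W e false ξ ψ x0 ψ0 j i).1 ≠ 0 ∨ (lawP W e false ξ ψ x0 ψ0 j i).2 ≠ 0) →
    (∀ j i, (lawP W e true ξ ψ x0 ψ0 j i).1 = ω j i * (lawP W e false ξ ψ x0 ψ0 j i).1 ∧
      (lawP W e true ξ ψ x0 ψ0 j i).2 = ω j i * (lawP W e false ξ ψ x0 ψ0 j i).2) →
    (∀ β, wt d β < wt d α →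
      MvPowerSeries.coeff β (PT W n M δ e c (fun _ _ => false) X Ψ x0 ψ0) = 0) →
    MvPowerSeries.coeff α (PT W n M δ e c lam X Ψ x0 ψ0) =
      (∏ j, ∏ i, if lam j i = true then ω j i ^ M else 1) *
        MvPowerSeries.coeff α (PT W n M δ e c (fun _ _ => false) X Ψ x0 ψ0)

/-- **LOC3** (the local estimate). Hypothesis allowed: FRPS.
PROOF. Adapt LOCB (landed: `Pool/Agent/Helper31/VN/LOCB.lean`) with `n = 2`, `δ = 1`: `KeyB3` in the frame `NPS v r` (the power series ring is a domain and `aeval (X 1) a0 ≠ 0` because its constant coefficient is `eval (ξ 1) a0 ≠ 0`: the cancellation hypothesis; `aeval (X 1) g = 0`: `TayW.rel`), `a j i = B' v * M_v(ξ j i)`, `b = B' v`; the centre hypotheses are given.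
The rest (Cauchy estimate, choice of the laws, cancellation of `∏ M_v(ω)^M`) as in LOCB; `![ρ, 1] 1 = 1`. -/
def LOC3 : Prop :=
  ∀ (K : Type) [Field K] [NumberField K] (σ : Type) [Fintype σ] [DecidableEq σ]
    (W : σ → Affine K) (J : Type) (f : J → MvPolynomial σ K) (D M k0 : ℕ)
    (B B' B'' : AbsoluteValue K ℝ → ℝ), PlC B → PlC B' → PlC B'' →
    ∃ Bt : AbsoluteValue K ℝ → ℝ, PlC Bt ∧
    ∀ (e : Fin 2 → ℕ) (c : Ix σ 2 M 1 e → K) (ξ ψ ω : Fin 2 → σ → K) (x0 ψ0 : σ → K)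
      (g a0 : MvPolynomial σ K) (i' : σ)
      (X Ψ : Fin 2 → σ → MvPowerSeries (Fin 2 × σ) K) (α : Fin 2 × σ →₀ ℕ) (dl : K)
      (v : AbsoluteValue K ℝ) (r : Fin 2 × σ → ℝ) (ρ s : ℝ),
      KeyB3 W f D M k0 g a0 x0 ψ0 e c B → TayW W ξ ψ i' g X Ψ → eval (ξ 1) a0 ≠ 0 →
      (∀ i, ψ0 i ^ 2 = Bf (W i) (x0 i)) →
      (∀ α, v (c α) ≤ s) → (∀ h, 0 < r h) → 0 < ρ → ρ ≤ 1 →
      (∀ j i, NPS v r (X j i) (B' v * Mv v (ξ j i)) ∧ NPS v r (Ψ j i) (B' v * Mv v (ξ j i) ^ 2)) →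
      (∀ k, NPS v r (aeval (X 0) (f k)) (ρ * ∏ i, (B' v * Mv v (ξ 0 i)) ^ D)) →
      (∀ k, NPS v r (aeval (X 1) (f k)) (∏ i, (B' v * Mv v (ξ 1 i)) ^ D)) →
      (∀ i, v (ψ0 i) ≤ B' v * Mv v (x0 i) ^ 2) →
      (∀ j i, Mv v (ξ j i) ^ (2 * 4 ^ e j) * Mv v (x0 i) ^ 2 ≤ B'' v ^ (4 ^ e j) *
        max (v (lawP W e false ξ ψ x0 ψ0 j i).1) (v (lawP W e false ξ ψ x0 ψ0 j i).2) *
          Mv v (ω j i)) →
      (∀ lam : Fin 2 → σ → Bool, MvPowerSeries.coeff α (PT W 2 M 1 e c lam X Ψ x0 ψ0) =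
        (∏ j, ∏ i, if lam j i = true then ω j i ^ M else 1) * dl) →
      v dl ≤ s * Bt v ^ sqB e *
        (∏ j, ∏ i, (max (v (lawP W e false ξ ψ x0 ψ0 j i).1)
          (v (lawP W e false ξ ψ x0 ψ0 j i).2)) ^ M * Mv v (ξ j i) ^ (4 ^ e j + 2)) *
        ρ ^ (k0 * 4 ^ e 0) * (∏ i, Mv v (x0 i)) * ∏ h, (1 / r h) ^ α h

/-- **GLOB3** (the global inequality). Hypotheses allowed: HHO, S_CHB (`rho D f v x = rhs f D v x` by `rfl`).
PROOF. Adapt GLOBB (landed: `Pool/Agent/Helper57/VN/GLOBB.lean`), `n = 2`, `δ = 1`. New: `log (1 / rad3 (1, i)) = log B' + 2 log (gsup v g) + E ∑_i' log Mv v (ξ 1 i') - 2 log v (dlt ..)`; sum over the places: `PS (log gsup v g) = log PH g` (`PS_log_iSup`, `g ≠ 0` as its derivative is not `0`; `PH g = mulHeight` of the same family over `g.support`),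
`PS_log_Mv`, `PS_log` (product formula) for `dlt g i' (ξ 1) (ψ 1) ≠ 0`. The block `0` as in GLOBB. -/
def GLOB3 : Prop :=
  ∀ (K : Type) [Field K] [NumberField K] (σ : Type) [Fintype σ] [DecidableEq σ]
    (J : Type) [Fintype J] (D : ℕ) (f : J → MvPolynomial σ K),
    (∀ j i, degreeOf i (f j) ≤ D) → ∀ (M k0 E : ℕ) (Bt B' : AbsoluteValue K ℝ → ℝ),
    PlC Bt → PlC B' → ∃ C : ℝ, 0 ≤ C ∧
    ∀ (e : Fin 2 → ℕ) (ι : Type) [Finite ι] (c : ι → K) (A : ℝ) (ξ ψ : Fin 2 → σ → K)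
      (x0 : σ → K) (g : MvPolynomial σ K) (i' : σ)
      (lo : Fin 2 → σ → K × K) (α : Fin 2 × σ →₀ ℕ) (dl : K), c ≠ 0 → 0 ≤ A →
      (∀ i, IsIntegral ℤ (c i)) → (∀ i, NumberField.house (c i) ≤ Real.exp A) → dl ≠ 0 →
      (∀ j i, (lo j i).1 ≠ 0 ∨ (lo j i).2 ≠ 0) →
      (∀ j i, FS (fun v => Real.log (max (v (lo j i).1) (v (lo j i).2)))) →
      (∃ k, eval (ξ 0) (f k) ≠ 0) → dlt g i' (ξ 1) (ψ 1) ≠ 0 →
      (∀ (v : AbsoluteValue K ℝ) (s : ℝ), (∀ i, v (c i) ≤ s) →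
        v dl ≤ s * Bt v ^ sqB e *
        (∏ j, ∏ i, (max (v (lo j i).1) (v (lo j i).2)) ^ M * Mv v (ξ j i) ^ (4 ^ e j + 2)) *
        rho D f v (ξ 0) ^ (k0 * 4 ^ e 0) * (∏ i, Mv v (x0 i)) *
        ∏ h, (1 / rad3 D f E g i' (B' v) v ξ ψ h) ^ α h) →
      (k0 : ℝ) * 4 ^ e 0 * cH D f (ξ 0) ≤
        ∑ j, ∑ i, (M * PS (fun v => Real.log (max (v (lo j i).1) (v (lo j i).2))) +
          ((4 : ℝ) ^ e j + 2) * logHeight₁ (ξ j i)) + ∑ i, logHeight₁ (x0 i) +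
        ∑ i, (α (0, i) : ℝ) * (C + 2 * logHeight₁ (ξ 0 i) + cH D f (ξ 0)) +
        ∑ i, (α (1, i) : ℝ) * (C + 2 * Real.log (PH g) + E * ∑ i, logHeight₁ (ξ 1 i)) +
        C * (sqB e + A)

/-- **NUM3** (numbers). No hypotheses.
PROOF. Real arithmetic, as NUMB (landed: `Pool/Agent/Helper14/VN/NUMB.lean`). `q 0 ≤ T/K0`, `1 ≤ q 1 ≤ q 0`, `K0 ≤ q 1`, `T ≥ K0` (`K0 ≥ 1`). `s0 = ∑_i a (0,i)`, `s1 = ∑_i a (1,i)`: `s0/q 0 + s1/q 1 < 1`, so `s0 ≤ q 0`, `s1 ≤ q 1`. With `X (j,i) ≥ 0`, `∑_i X (j,i) ≤ y j + m c0`: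
`k0 q_0 g ≤ M (θ T + m c0) 2 + ∑_j (q_j + 2)(y_j + m c0) + (2T + m c0) + s0 (C + 2 (y_0 + m c0) + g) + s1 (C + 2 A2 + E (y_1 + m c0)) + C (q_0 + q_1 + CA q_0)`. Here `M θ ≤ 1`; `q_j y_j ≤ 2T`; `2 y_j ≤ 4T/q_j ≤ 4T/K0`; `s0 g ≤ q_0 g` (`0 ≤ g`); `s0 2 y_0 ≤ 4T`; `s1 E y_1 ≤ 2 E T`; `s1 2 A2 ≤ 2 q_1 A2 ≤ 2 C0 q_0 ≤ 2 C0 T/K0`; all others are
`≤ C₁ q_0 ≤ C₁ T/K0`. So `(k0 - 1) q_0 g ≤ (2 + 4 + 2 + 4 + 2E) T + C₂ T/K0 < (13 + 2E) T` for `K0 > C₂`, but `(k0 - 1) q_0 g ≥ (k0 - 1) ε T ≥ (14 + 2E) T`, `T > 0`. -/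
def NUM3 : Prop :=
  ∀ (m M k0 E : ℕ) (ε θ c0 C CA C0 : ℝ), 0 < ε → 14 + 2 * (E : ℝ) ≤ ((k0 : ℝ) - 1) * ε →
    0 ≤ θ → M * θ ≤ 1 → 0 ≤ c0 → 0 ≤ C → 0 ≤ CA → 0 ≤ C0 → ∃ K0 : ℝ, ∀ (σ : Type) [Fintype σ]
      (q y w : Fin 2 → ℝ) (g A2 T A X0s : ℝ) (X a : Fin 2 × σ → ℝ), Fintype.card σ = m →
      1 ≤ q 1 → q 1 ≤ q 0 → K0 ≤ q 1 → K0 * q 0 ≤ T →
      (∀ j, 0 ≤ y j ∧ q j * y j ≤ 2 * T) → ε * T ≤ q 0 * g → 0 ≤ g →
      (∀ j, w j ≤ θ * T + m * c0) → X0s ≤ 2 * T + m * c0 →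
      (∀ h, 0 ≤ X h) → (∀ j, ∑ i, X (j, i) ≤ y j + m * c0) → (∀ h, 0 ≤ a h) →
      ∑ h : Fin 2 × σ, a h / q h.1 < 1 → A ≤ CA * q 0 → q 1 * A2 ≤ C0 * q 0 →
      (k0 : ℝ) * q 0 * g ≤
        ∑ j, (M * w j + (q j + 2) * ∑ i, X (j, i)) + X0s +
        ∑ i, a (0, i) * (C + 2 * X (0, i) + g) +
        ∑ i, a (1, i) * (C + 2 * A2 + E * ∑ i, X (1, i)) + C * (∑ j, q j + A) → False

/-! ## The zero estimate (helper92), theorem P3 -/

/-- **ZE3** (the zero estimate of P3; captain helper92). `h0` depends on `σ`, `D0` only (IND). -/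
def ZE3 : Prop :=
  ∀ (D0 : ℕ), ∃ h0 : ℕ, 1 ≤ h0 ∧
    ∀ (K : Type) [Field K] [NumberField K] (σ : Type) [Fintype σ] [DecidableEq σ]
    (W : σ → Affine K), (∀ i, (W i).IsElliptic) → ∀ (C0 : ℝ), 0 ≤ C0 → ∀ (M : ℕ) (CA : ℝ),
    1 ≤ M → 0 ≤ CA → ∃ (D' : ℕ) (C' K1 : ℝ), 0 ≤ C' ∧
      ∀ (i' i0 : σ) (e : Fin 2 → ℕ) (c : Ix σ 2 M 1 e → K) (ξ ψ : Fin 2 → σ → K)
        (x0 ψ0 : σ → K) (g2 g0 : MvPolynomial σ K)
        (X Ψ : Fin 2 → σ → MvPowerSeries (Fin 2 × σ) K), i0 ≠ i' → c ≠ 0 →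
        (∀ α, IsIntegral ℤ (c α)) →
        (∀ α, NumberField.house (c α) ≤ Real.exp (CA * 4 ^ e 0)) →
        (∀ α, ¬ Sup3 i' i0 h0 α → c α = 0) → TayW W ξ ψ i' g2 X Ψ → (∀ j i, ψ j i ≠ 0) →
        (∀ i, ψ0 i ^ 2 = Bf (W i) (x0 i)) → Irreducible g2 → Irreducible g0 →
        (∀ i, degreeOf i g2 ≤ D0) → (∀ i, degreeOf i g0 ≤ D0) →
        Real.log (PH g2) ≤ C0 * (4 ^ e 0 / 4 ^ e 1) → Real.log (PH g0) ≤ C0 * 4 ^ e 0 →
        eval (ξ 1) g2 = 0 → eval x0 g0 = 0 →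
        NN W g2 (ξ 1) i0 * NN W g0 x0 i' ≠ NN W g0 x0 i0 * NN W g2 (ξ 1) i' →
        K1 ≤ (4 : ℝ) ^ e 1 → K1 * (4 : ℝ) ^ e 1 ≤ 4 ^ e 0 →
        Lo Finset.univ D' C' (ξ 0) ∨
        Lo (Finset.univ.erase i') D' (C' * (4 ^ e 0 / 4 ^ e 1)) (ξ 1) ∨
        Lo (Finset.univ.erase i') D' (C' * 4 ^ e 0) x0 ∨
        ∃ α : Fin 2 × σ →₀ ℕ, wt (fun h : Fin 2 × σ => 4 ^ e h.1) α < 1 ∧
          MvPowerSeries.coeff α (PT W 2 M 1 e c (fun _ _ => false) X Ψ x0 ψ0) ≠ 0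

/-- **PG3** (theorem PG for P3; assembly by helper68 from AUX3, ZE3, TAYW3, LAW3, LOC3, GLOB3, NUM3, CHB, ELAW, ELOC, LAWH, EUP). -/
def PG3 : Prop :=
  ∀ (D0 : ℕ), ∃ h0 : ℕ, 1 ≤ h0 ∧
  ∀ (K : Type) [Field K] [NumberField K] [DecidableEq K] (σ : Type) [Fintype σ] [DecidableEq σ]
    [Nonempty σ] (W : σ → Affine K), (∀ i, (W i).IsElliptic) → ∀ (H : ∀ i, (W i).Point → ℝ)
    (c₀ : ℝ), (∀ i, CanH (W i) (H i) c₀) → ∀ (Df : ℕ) (J : Type) [Fintype J]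
    (f : J → MvPolynomial σ K), 1 ≤ Df → (∀ j i, degreeOf i (f j) ≤ Df) →
    ∀ (p c d : ℕ) (B' : AbsoluteValue K ℝ → ℝ), 0 < d → PlC B' → p ≤ Fintype.card σ →
    (∀ N : ℕ, ∃ (T : Type) (_ : Fintype T) (gr : T → ℕ) (E : T → MvPolynomial σ K)
        (r : T → (σ → ℕ) → K), CenR f Df p c d B' N T gr E r) →
    ∀ (M k0 S0 : ℕ) (ε C0 C1 : ℝ) (i' i0 : σ), i0 ≠ i' → 1 ≤ M → 0 < ε →
    14 + 2 * ((2 * D0 + 9 : ℕ) : ℝ) ≤ ((k0 : ℝ) - 1) * ε → 0 ≤ C0 → 0 ≤ C1 →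
    2 * 16 ^ Fintype.card σ * c * k0 ^ p * (2 * M + 2) ^ (Fintype.card σ - p) * (D0 + 1) *
      ((2 * M + 2) * (1 + D0)) ^ (Fintype.card σ - 1) * S0 * h0 ≤
      (M + 1) ^ (2 * Fintype.card σ) →
    ∃ (D' : ℕ) (C' θ K0 : ℝ), 0 < θ ∧ 0 ≤ C' ∧
      ∀ (x : Fin 2 → ∀ i, (W i).Point) (x0 : ∀ i, (W i).Point) (e : Fin 2 → ℕ) (T : ℝ)
        (g2 g0 a0 : MvPolynomial σ K) (U2 U : Type) [Fintype U2] [Fintype U]
        (ρ : U2 → (σ → ℕ) → K) (ν : U → (σ → ℕ) → K),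
        (∀ j i, x j i ≠ 0 ∧ ps (x j i) ≠ 0) → (∀ i, x0 i ≠ 0 ∧ ps (x0 i) ≠ 0) →
        (∀ j, (4 : ℝ) ^ e j * nrs H (x j) ≤ 2 * T) → nrs H x0 ≤ 2 * T →
        (∀ j, nrs H ((2 ^ e j) • x j - x0) ≤ θ * T) →
        ε * T ≤ (4 : ℝ) ^ e 0 * cH Df f (xs (x 0)) → (∃ t, eval (xs (x 0)) (f t) ≠ 0) →
        K0 ≤ (4 : ℝ) ^ e 1 → K0 * (4 : ℝ) ^ e 1 ≤ 4 ^ e 0 → K0 * (4 : ℝ) ^ e 0 ≤ T →
        Irreducible g2 → Irreducible g0 → (∀ i, degreeOf i g2 ≤ D0) →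
        (∀ i, degreeOf i g0 ≤ D0) → Real.log (PH g2) ≤ C0 * (4 ^ e 0 / 4 ^ e 1) →
        Real.log (PH g0) ≤ C0 * 4 ^ e 0 → eval (xs (x 1)) g2 = 0 → eval (xs x0) g0 = 0 →
        NN W g2 (xs (x 1)) i0 * NN W g0 (xs x0) i' ≠
          NN W g0 (xs x0) i0 * NN W g2 (xs (x 1)) i' →
        eval (xs (x 1)) (pderiv i' g2) ≠ 0 → eval (xs (x 1)) a0 ≠ 0 →
        Fintype.card U2 ≤ (D0 + 1) * (N0 M (e 1) * (1 + D0) + 1) ^ (Fintype.card σ - 1) →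
        Fintype.card U ≤ S0 → RedD (xs x0) (4 * M) ν (C1 * 4 ^ e 0) →
        RedG g2 a0 (N0 M (e 1)) ρ (C1 * 4 ^ e 0) →
        Lo Finset.univ D' C' (xs (x 0)) ∨
        Lo (Finset.univ.erase i') D' (C' * (4 ^ e 0 / 4 ^ e 1)) (xs (x 1)) ∨
        Lo (Finset.univ.erase i') D' (C' * 4 ^ e 0) (xs x0)

end

end Pool.Agent.Helper68.T3
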