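import Pool.Agent.Helper68.T3.AsmP3
import Pool.Agent.Helper68.VN.Main
import Pool.Agent.Helper92.ZH.Main
import Pool.Agent.Helper33.T3.PSD3
import Pool.Agent.Helper17.T3.REDW
import Pool.Agent.Helper32.T3.CARD3
import Pool.Agent.Helper93.T3.SIE3
import Pool.Agent.Helper71.T3.VAN3
import Pool.Agent.Helper45.T3.KEY3
import Pool.Agent.Helper94.T3.TAYP
import Pool.Agent.Helper57.T3.TAYF3
import Pool.Agent.Helper9.T3.FXP
import Pool.Agent.Helper2.T3.SHN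
import Pool.Agent.Helper49.T3.IFT
import Pool.Agent.Helper35.T3.TAYW3
import Pool.Agent.Helper34.T3.LAW3
import Pool.Agent.Helper66.T3.LOC3
import Pool.Agent.Helper37.T3.GLOB3
import Pool.Agent.Helper45.T3.NUM3

/-!
# Project T3 (MP_a41896_nt): theorem P3 from the packets (hypotheses left: IND and RESL of helper60)
-/

set_option autoImplicit false

namespace Pool.Agent.Helper68.T3

open Pool.Agent.Helper42.SG
open Pool.Agent.Helper68.VN
open Pool.Agent.Helper60.T3 (S_P3 S_RESL S_IND)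

theorem th_AUX3 : AUX3 :=
  aux3 Pool.Agent.Helper14.VN.ARRB.t_ARRB
    (Pool.Agent.Helper93.T3.t_SIE3 Pool.Agent.Helper32.T3.CARD3.t_CARD3
      Pool.Agent.Helper24.SGC.hous)
    (Pool.Agent.Helper45.T3.KEY3.t_KEY3 (Pool.Agent.Helper91.VN.t_EXPB t_BLKX)
      Pool.Agent.Helper71.T3.VAN3.t_VAN3 Pool.Agent.Helper35.SGC1.nfb
      Pool.Agent.Helper50.VN.BRNB.t_BRNB Pool.Agent.Helper95.VN.t_CNTB)

theorem th_REDW : REDW :=
  Pool.Agent.Helper17.T3.REDW.t_REDW Pool.Agent.Helper33.T3.t_PSD3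

theorem th_SHN : SHN := Pool.Agent.Helper2.T3.t_SHN Pool.Agent.Helper65.SG.th_FRPO

theorem th_IFT : IFT := Pool.Agent.Helper49.T3.t_IFT Pool.Agent.Helper9.T3.FXP.t_FXP th_SHN

theorem th_TAYW3 : TAYW3 :=
  Pool.Agent.Helper35.T3.TAYW3.t_TAYW3 Pool.Agent.Helper94.T3.TAYP.t_TAYP
    Pool.Agent.Helper57.T3.TAYF3.t_TAYF3 th_IFT

/-- Theorem PG3 from IND -/
theorem th_PG3 (hI : S_IND) : PG3 :=
  pg3 th_AUX3 (Pool.Agent.Helper92.ZH.Main.th_ZE3 hI) th_TAYW3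
    (Pool.Agent.Helper34.T3.LAW3.t_LAW3 Pool.Agent.Helper12.SGB.th_RPOL
      Pool.Agent.Helper31.SGT.t_MINC)
    (Pool.Agent.Helper66.T3.LOC3.t_LOC3 Pool.Agent.Helper65.SG.th_FRPS)
    (Pool.Agent.Helper37.T3.t_GLOB3 t_HHO Pool.Agent.Helper16.HC.CHB.t)
    Pool.Agent.Helper45.T3.NUM3.t_NUM3
    Pool.Agent.Helper12.SGB.th_EDUP Pool.Agent.Helper12.SGB.th_ELAW
    Pool.Agent.Helper12.SGB.th_ELOC t_LAWH Pool.Agent.Helper12.SGB.th_EUP
    Pool.Agent.Helper40.SGE.mina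

/-- **Theorem P3** from IND and RESL -/
theorem th_P3 (hI : S_IND) (hR : S_RESL) : S_P3 :=
  p3 (th_PG3 hI) th_CENX Pool.Agent.Helper16.HC.CHB.t th_RELP th_REDW hR

end Pool.Agent.Helper68.T3
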