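import Pool.Agent.Helper68.T3.AsmPG3
import Pool.Agent.Helper68.VN.AsmP
import Pool.Agent.Helper15.Ru.DetH
import Pool.Agent.Helper40.Ru.HasseBasic
import Pool.Agent.Helper96.Ru.HeightLocal

/-!
# Project T3 (MP_a41896_nt): theorem P3 (`S_P3` of helper60) from theorem PG3
-/

set_option autoImplicit false

open MvPolynomial

namespace Pool.Agent.Helper68.T3

open WeierstrassCurve Height Height.AdmissibleAbsValues
open Pool.Agent.Helper29.BL Pool.Agent.Helper92.Ru Pool.Agent.Helper42.SG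
open Pool.Agent.Helper68.VN
open Pool.Agent.Helper77.SGC (N0)
open Pool.Agent.Helper5.UN (CodimGT cH)
open Pool.Agent.Helper60.HC (Lo Al S_CHB rhs nrs)
open Pool.Agent.Helper60.T3 (NN S_P3 S_RESL)

noncomputable section

lemma Lo_mono {K : Type} [Field K] [NumberField K] {σ : Type} {I : Finset σ} {D D' : ℕ}
    {A A' : ℝ} {x : σ → K} (h : Lo I D A x) (hD : D ≤ D') (hA : A ≤ A') : Lo I D' A' x := by
  obtain ⟨g, h0, h1, h2, h3, h4⟩ := h
  exact ⟨g, h0, fun i => (h1 i).trans hD, h2, h3, h4.trans hA⟩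

lemma RedG.mono {K : Type} [Field K] [NumberField K] {σ : Type} [Fintype σ] [DecidableEq σ]
    {g a0 : MvPolynomial σ K} {N : ℕ} {U : Type} {ρ : U → (σ → ℕ) → K} {H H' : ℝ}
    (h : RedG g a0 N ρ H) (hH : H ≤ H') : RedG g a0 N ρ H' :=
  ⟨h.int, fun u g => (h.hs u g).trans (Real.exp_le_exp.mpr hH), h.red⟩

/-- the height of a derivative -/
lemma PH_pderiv (K : Type) [Field K] [NumberField K] (σ : Type) [Fintype σ] [DecidableEq σ]
    (D0 : ℕ) : ∃ C : ℝ, 0 ≤ C ∧ ∀ (p : MvPolynomial σ K) (i : σ), p ≠ 0 →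
      (∀ i, p.degreeOf i ≤ D0) → Real.log (PH (pderiv i p)) ≤ Real.log (PH p) + C := by
  classical
  have hHB := Pool.Agent.Helper40.Ru.hasseBasic
  have hDH := Pool.Agent.Helper15.Ru.detHeight hHB Pool.Agent.Helper96.Ru.heightLocal
  refine ⟨((2 * Fintype.card σ + 1) * (D0 + 1) * 1 * Module.finrank ℚ K : ℕ) * Real.log 2,
    by positivity, fun p i hp hd => ?_⟩
  have h1 := hDH K σ 1 (D0 + 1) p (fun _ _ => Finsupp.single i 1) hp (by omega) (by omega)
    (fun h => (hd h).trans (by omega))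
  have h2 : (Matrix.of (fun (_ _ : Fin 1) => hasse (Finsupp.single i 1) p)).det =
      hasse (Finsupp.single i 1) p := by
    rw [Matrix.det_fin_one]
    rfl
  rw [h2, pow_one] at h1
  have h3 : pderiv i p = hasse (Finsupp.single i 1) p := by
    have h4 := (hHB K σ 0 p).2.1 i
    rw [(hHB K σ 0 p).2.2.2] at h4
    rw [h4]
    simp
  rw [h3]
  have hpos : ∀ q : MvPolynomial σ K, 0 < PH q := fun q => Height.mulHeight_pos _
  calc Real.log (PH (hasse (Finsupp.single i 1) p))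
      ≤ Real.log (2 ^ ((2 * Fintype.card σ + 1) * (D0 + 1) * 1 * Module.finrank ℚ K) * PH p) :=
        Real.log_le_log (hpos _) h1
    _ = _ := by
        rw [Real.log_mul (by positivity) (hpos p).ne', Real.log_pow]
        push_cast
        ring

lemma exists_k0' (ε A : ℝ) (hε : 0 < ε) : ∃ k0 : ℕ, A ≤ ((k0 : ℝ) - 1) * ε := by
  refine ⟨⌈A / ε⌉₊ + 1, ?_⟩
  have h1 : A / ε ≤ (⌈A / ε⌉₊ : ℝ) := Nat.le_ceil _
  have h2 : A / ε * ε = A := by field_simp
  push_cast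
  rw [add_sub_cancel_right]
  calc A = A / ε * ε := h2.symm
    _ ≤ _ := mul_le_mul_of_nonneg_right h1 hε.le

lemma count3aux (A D1 h0 B M : ℕ) (E : ℕ) (hE : E ≤ B * (M + 1)) :
    A * (2 * M + 2) ^ 1 * D1 * ((2 * M + 2) * D1) ^ 2 * (D1 ^ 3 * E ^ 2) * h0 ≤
      (A * 2 * D1 * (2 * D1) ^ 2 * (D1 ^ 3 * B ^ 2) * h0) * (M + 1) ^ 5 := by
  have h2 : E ^ 2 ≤ B ^ 2 * (M + 1) ^ 2 := by
    rw [← mul_pow]
    exact Nat.pow_le_pow_left hE 2
  calc A * (2 * M + 2) ^ 1 * D1 * ((2 * M + 2) * D1) ^ 2 * (D1 ^ 3 * E ^ 2) * h0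
      ≤ A * (2 * M + 2) ^ 1 * D1 * ((2 * M + 2) * D1) ^ 2 *
        (D1 ^ 3 * (B ^ 2 * (M + 1) ^ 2)) * h0 :=
        Nat.mul_le_mul_right _ (Nat.mul_le_mul_left _ (Nat.mul_le_mul_left _ h2))
    _ = _ := by ring

lemma count3 (c k0 D0 h0 : ℕ) : ∃ M : ℕ, 1 ≤ M ∧
    2 * 16 ^ 3 * c * k0 ^ 2 * (2 * M + 2) ^ (3 - 2) * (D0 + 1) *
      ((2 * M + 2) * (1 + D0)) ^ (3 - 1) *
      ((D0 + 1) ^ 3 * ((4 * M) * (1 + 3 * D0) + 1) ^ 2) * h0 ≤ (M + 1) ^ (2 * 3) := by
  obtain ⟨A, hA⟩ : ∃ A, A = 2 * 16 ^ 3 * c * k0 ^ 2 := ⟨_, rfl⟩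
  obtain ⟨Q, hQ⟩ : ∃ Q, Q = A * 2 * (D0 + 1) * (2 * (D0 + 1)) ^ 2 *
    ((D0 + 1) ^ 3 * (4 * (1 + 3 * D0)) ^ 2) * h0 := ⟨_, rfl⟩
  refine ⟨Q + 1, Nat.le_add_left 1 Q, ?_⟩
  have h1 : (4 * (Q + 1)) * (1 + 3 * D0) + 1 ≤ 4 * (1 + 3 * D0) * ((Q + 1) + 1) := by
    have : 4 * (1 + 3 * D0) * ((Q + 1) + 1) = (4 * (Q + 1)) * (1 + 3 * D0) + 4 * (1 + 3 * D0) := by
      ring
    rw [this]
    exact Nat.add_le_add_left (by omega) _
  have h2 := count3aux A (D0 + 1) h0 (4 * (1 + 3 * D0)) (Q + 1) _ h1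
  rw [← hA, show 3 - 2 = 1 from rfl, show 3 - 1 = 2 from rfl, show 2 * 3 = 6 from rfl,
    Nat.add_comm 1 D0]
  refine h2.trans ?_
  rw [← hQ, pow_succ' (Q + 1 + 1) 5]
  exact Nat.mul_le_mul_right _ (by omega)

/-- smoothness in the direction `i'` or a relation without `X_i'` -/
lemma der_or_Lo (hRESL : S_RESL) (K : Type) [Field K] [NumberField K] (σ : Type) [Fintype σ]
    [DecidableEq σ] (D0 : ℕ) : ∃ (D' : ℕ) (C : ℝ), 0 ≤ C ∧ ∀ (h : MvPolynomial σ K) (x : σ → K)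
      (i' : σ) (A : ℝ), Irreducible h → (∀ i, h.degreeOf i ≤ D0) → eval x h = 0 →
      Real.log (PH h) ≤ A → 0 ≤ A → eval x (pderiv i' h) ≠ 0 ∨
        Lo (Finset.univ.erase i') D' (C * (1 + A)) x := by
  classical
  obtain ⟨C1, hC1, hP⟩ := PH_pderiv K σ D0
  obtain ⟨D2, C2, hC2, hR⟩ := hRESL K σ D0
  refine ⟨max D0 D2, 1 + C2 * (1 + C1), by positivity, fun h x i' A hirr hd hz hA hA0 => ?_⟩
  by_cases hx : eval x (pderiv i' h) = 0
  swap
  · exact Or.inl hx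
  right
  have hh0 : h ≠ 0 := hirr.ne_zero
  by_cases hp : pderiv i' h = 0
  · -- `h` does not involve `X_i'`
    have hdeg : h.degreeOf i' = 0 := by
      by_contra hne
      obtain ⟨m, hm, hm1⟩ : ∃ m ∈ h.support, 1 ≤ m i' := by
        by_contra hcon
        push Not at hcon
        apply hne
        have : h.degreeOf i' ≤ 0 := by
          rw [degreeOf_le_iff]
          intro m hm
          have := hcon m hm
          omega
        omega
      have h1 := congrArg (coeff (m - Finsupp.single i' 1)) hp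
      rw [coeff_pderiv, coeff_zero] at h1
      have h2 : m - Finsupp.single i' 1 + Finsupp.single i' 1 = m := by
        apply tsub_add_cancel_of_le
        intro j
        by_cases hj : j = i'
        · subst hj; simpa using hm1
        · simp [Finsupp.single_apply, Ne.symm hj]
      rw [h2] at h1
      have h3 := mem_support_iff.mp hm
      rcases mul_eq_zero.mp h1 with h4 | h4
      · exact h3 h4
      · have h5 : (((m - Finsupp.single i' 1 : σ →₀ ℕ) i' + 1 : ℕ) : K) = 0 := by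
          push_cast; exact h4
        exact (Nat.succ_ne_zero _) (Nat.cast_eq_zero.mp h5)
    refine ⟨h, hh0, fun i => (hd i).trans (le_max_left _ _), fun i hi => ?_, hz, hA.trans ?_⟩
    · have : i = i' := by
        by_contra hne
        exact hi (Finset.mem_erase.mpr ⟨hne, Finset.mem_univ i⟩)
      rw [this]; exact hdeg
    · nlinarith [mul_nonneg hC2 hC1]
  · have hnd : ¬ h ∣ pderiv i' h := by
      intro hdv
      obtain ⟨q, hq⟩ := hdv
      have hq0 : q ≠ 0 := by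
        rintro rfl
        rw [mul_zero] at hq
        exact hp hq
      have h1 : (pderiv i' h).degreeOf i' = h.degreeOf i' + q.degreeOf i' := by
        rw [hq, degreeOf_mul_eq hh0 hq0]
      have h2 : (pderiv i' h).degreeOf i' ≤ h.degreeOf i' - 1 := by
        rw [degreeOf_le_iff]
        intro m hm
        have h3 := mem_support_iff.mp hm
        rw [coeff_pderiv] at h3
        have h4 : coeff (m + Finsupp.single i' 1) h ≠ 0 := left_ne_zero_of_mul h3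
        have h5 := monomial_le_degreeOf i' (mem_support_iff.mpr h4)
        simp at h5
        omega
      have h6 : h.degreeOf i' = 0 := by omega
      apply hp
      ext m
      rw [coeff_pderiv, coeff_zero]
      have h7 : coeff (m + Finsupp.single i' 1) h = 0 := by
        by_contra h8
        have h9 := monomial_le_degreeOf i' (mem_support_iff.mpr h8)
        simp at h9
        omega
      rw [h7, zero_mul]
    have hdd : ∀ i, (pderiv i' h).degreeOf i ≤ D0 := by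
      intro i
      rw [degreeOf_le_iff]
      intro m hm
      have h3 := mem_support_iff.mp hm
      rw [coeff_pderiv] at h3
      have h4 : coeff (m + Finsupp.single i' 1) h ≠ 0 := left_ne_zero_of_mul h3
      have h5 := monomial_le_degreeOf i (mem_support_iff.mpr h4)
      have h6 : m i ≤ (m + Finsupp.single i' 1 : σ →₀ ℕ) i := by simp
      exact h6.trans (h5.trans (hd i))
    have h1 := hR h (pderiv i' h) x i' (A + C1) hirr hp hnd hd hdd hz hx
      (by linarith) ((hP h i' hh0 hd).trans (by linarith)) (by linarith)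
    refine Lo_mono h1 (le_max_right _ _) ?_
    nlinarith [mul_nonneg hC2 hC1, mul_nonneg hC2 (mul_nonneg hC1 hA0)]

/-- the bound `S ≤ S'` for finite families -/
lemma exists_bounds {ι : Type} [Fintype ι] (D : ι → ℕ) (C θ K0 : ι → ℝ) (hθ : ∀ i, 0 < θ i)
    (hC : ∀ i, 0 ≤ C i) : ∃ (D' : ℕ) (C' θ' K0' : ℝ), 0 < θ' ∧ 0 ≤ C' ∧
      ∀ i, D i ≤ D' ∧ C i ≤ C' ∧ θ' ≤ θ i ∧ K0 i ≤ K0' := by
  classical
  obtain ⟨t, ht, ht2⟩ : ∃ t : ℝ, 0 < t ∧ ∀ i, t ≤ θ i := by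
    by_cases hne : Nonempty ι
    · obtain ⟨i, hi⟩ := Finite.exists_min θ
      exact ⟨θ i, hθ i, hi⟩
    · exact ⟨1, one_pos, fun i => absurd ⟨i⟩ hne⟩
  refine ⟨∑ i, D i, ∑ i, C i, t, ∑ i, |K0 i|, ht, Finset.sum_nonneg fun i _ => hC i,
    fun i => ⟨Finset.single_le_sum (fun i _ => Nat.zero_le _) (Finset.mem_univ i),
      Finset.single_le_sum (fun i _ => hC i) (Finset.mem_univ i), ht2 i, ?_⟩⟩
  exact (le_abs_self _).trans
    (Finset.single_le_sum (f := fun i => |K0 i|) (fun i _ => abs_nonneg _) (Finset.mem_univ i))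

set_option maxHeartbeats 1000000 in
/-- Theorem P3 -/
theorem p3 (hPG : PG3) (hCENX : CENX) (hCHB : S_CHB) (hREL : RELP) (hREDW : REDW)
    (hRESL : S_RESL) : S_P3 := by
  classical
  intro K _ _ _ σ _ _ W hW H c₀ hH h3 D J _ f hdeg hcod ε D0 C0 hε hC0
  haveI : Nonempty σ := Fintype.card_pos_iff.mp (by omega)
  rcases Nat.eq_zero_or_pos D with hD | hD
  · subst hD
    obtain ⟨K0, hK0⟩ := al_zero hCHB H f hdeg ε hε
    exact ⟨0, 0, 1, K0, one_pos, le_rfl, fun i' x x2 x0 e e2 T h2 h0 h => absurd h (hK0 0 1 x x0 e T)⟩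
  obtain ⟨h0, hh0, hPG⟩ := hPG D0
  obtain ⟨c, d, B, hc, hd, hB, hcen⟩ := hCENX K σ J D 2 f (by norm_num) (by omega) hdeg hcod
  obtain ⟨k0, hk0⟩ := exists_k0' ε (14 + 2 * ((2 * D0 + 9 : ℕ) : ℝ)) hε
  obtain ⟨M, hM1, hM⟩ := count3 c k0 D0 h0
  obtain ⟨CR, hCR, hrel⟩ := hREL K σ D0 (4 * M)
  obtain ⟨CW, hCW, hredw⟩ := hREDW K σ D0
  obtain ⟨D2, C2, hC2, hder⟩ := der_or_Lo hRESL K σ D0
  set C1 : ℝ := CR * (1 + C0) + CW * ((2 * M + 2) * (1 + C0)) with hC1
  have hC10 : 0 ≤ C1 := by positivity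
  set S0 : ℕ := (D0 + 1) ^ 3 * ((4 * M) * (1 + 3 * D0) + 1) ^ 2 with hS0
  -- the constants for all pairs
  have hall : ∀ p : {p : σ × σ // p.1 ≠ p.2}, _ := fun p =>
    hPG K σ W hW H c₀ hH D J f hD hdeg 2 c d B hd hB (by omega) hcen M k0 S0 ε C0 C1 p.1.2 p.1.1
      p.2 hM1 hε hk0 hC0 hC10 (by rw [h3]; exact hM)
  choose Dp Cp θp Kp hθp hCp hp using hall
  obtain ⟨D', C', θ, K0, hθ, hC', hbd⟩ := exists_bounds Dp Cp θp Kp hθp hCp
  refine ⟨max D' (max D0 D2), C' + (C0 + C2 * (1 + C0)), θ, max K0 1, hθ, by positivity, ?_⟩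
  intro i' x x2 x0 e e2 T g2 g0 hAl hnd2 hup2 hnr2 hbig2 hgr2 hg2 hg0 hg2d hg0d hg2h hg0h hg2z
    hg0z hNN
  obtain ⟨i0, hNN⟩ := hNN
  have hi : i0 ≠ i' := by
    rintro rfl
    exact hNN (mul_comm _ _)
  by_contra hcon
  push Not at hcon
  obtain ⟨hcon1, hcon2, hcon3⟩ := hcon
  have hK1 : K0 ≤ max K0 1 := le_max_left _ _
  have hK2 : 1 ≤ max K0 1 := le_max_right _ _
  have hq0 : (0 : ℝ) < 4 ^ e 0 := by positivity
  have hq2 : (0 : ℝ) < 4 ^ e2 := by positivity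
  have hq01 : (1 : ℝ) ≤ 4 ^ e 0 := one_le_pow₀ (by norm_num)
  have hq21 : (1 : ℝ) ≤ 4 ^ e2 := one_le_pow₀ (by norm_num)
  have hq20 : (4 : ℝ) ^ e2 ≤ 4 ^ e 0 := by
    have h2 : 1 * (4 : ℝ) ^ e2 ≤ max K0 1 * 4 ^ e2 := mul_le_mul_of_nonneg_right hK2 hq2.le
    linarith
  have hrat : 1 ≤ (4 : ℝ) ^ e 0 / 4 ^ e2 := by rwa [one_le_div hq2]
  have hA2 : 0 ≤ C0 * ((4 : ℝ) ^ e 0 / 4 ^ e2) := by positivity
  -- the derivative at `x2`
  have hder2 : eval (xs x2) (pderiv i' g2) ≠ 0 := by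
    rcases hder g2 (xs x2) i' _ hg2 hg2d hg2z hg2h hA2 with h | h
    · exact h
    · exfalso
      refine hcon2 (Lo_mono h ((le_max_right _ _).trans (le_max_right _ _)) ?_)
      have h1 : C2 * (1 + C0 * ((4 : ℝ) ^ e 0 / 4 ^ e2)) ≤
          C2 * ((1 + C0) * ((4 : ℝ) ^ e 0 / 4 ^ e2)) := by
        refine mul_le_mul_of_nonneg_left ?_ hC2
        linarith
      have h2 : 0 ≤ (C' + C0) * ((4 : ℝ) ^ e 0 / 4 ^ e2) := by positivity
      calc C2 * (1 + C0 * ((4 : ℝ) ^ e 0 / 4 ^ e2)) ≤ _ := h1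
        _ ≤ (C' + (C0 + C2 * (1 + C0))) * ((4 : ℝ) ^ e 0 / 4 ^ e2) := by linarith
  -- relations for `x0`
  have hins : ∀ i, i ∉ Finset.univ.erase i' → Lo (insert i (Finset.univ.erase i')) D0
      (C0 * 4 ^ e 0) (xs x0) := by
    intro i hi'
    have : i = i' := by
      by_contra hne
      exact hi' (Finset.mem_erase.mpr ⟨hne, Finset.mem_univ i⟩)
    rw [this, Finset.insert_erase (Finset.mem_univ i')]
    exact ⟨g0, hg0.ne_zero, hg0d, fun i hi => absurd (Finset.mem_univ i) hi, hg0z, hg0h⟩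
  have hnot : ¬ Lo (Finset.univ.erase i') D0 (C0 * 4 ^ e 0) (xs x0) := by
    intro h
    refine hcon3 (Lo_mono h ((le_max_left _ _).trans (le_max_right _ _)) ?_)
    refine mul_le_mul_of_nonneg_right ?_ hq0.le
    have : 0 ≤ C2 * (1 + C0) := by positivity
    linarith
  obtain ⟨U, hUf, ν, hU, hred⟩ := hrel (Finset.univ.erase i') _ (C0 * 4 ^ e 0) (by positivity)
    hnot hins
  have hcardI : (Finset.univ.erase i' : Finset σ).card = 2 := by
    rw [Finset.card_erase_of_mem (Finset.mem_univ _), Finset.card_univ, h3]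
  rw [hcardI, h3] at hU
  -- relations on `g2 = 0`
  obtain ⟨a0, ha0, ha0d, ha0i, ha0h, U2, hU2f, ρ, hU2, hredg⟩ := hredw g2 i'
    (C0 * ((4 : ℝ) ^ e 0 / 4 ^ e2)) (N0 M e2) hA2 hg2.ne_zero hg2d hg2h
  have ha0x : eval (xs x2) a0 ≠ 0 := by
    intro h
    refine hcon2 ⟨a0, ha0, fun i => (ha0d i).trans ((le_max_left _ _).trans (le_max_right _ _)),
      fun i hi' => ?_, h, ha0h.trans ?_⟩
    · have : i = i' := by
        by_contra hne
        exact hi' (Finset.mem_erase.mpr ⟨hne, Finset.mem_univ i⟩)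
      rw [this]; exact ha0i
    · refine mul_le_mul_of_nonneg_right ?_ (by positivity)
      have : 0 ≤ C2 * (1 + C0) := by positivity
      linarith
  -- the two points
  have hp' := hp ⟨(i0, i'), hi⟩
  obtain ⟨hb1, hb2, hb3, hb4⟩ := hbd ⟨(i0, i'), hi⟩
  have hT0 : 0 ≤ T := by
    have h1 := hAl.bigT 0
    have h2 : 0 ≤ max K0 1 * (4 : ℝ) ^ e 0 := by positivity
    linarith
  have hN : ((N0 M e2 : ℕ) : ℝ) + 1 ≤ (2 * M + 2) * 4 ^ e2 := by
    unfold Pool.Agent.Helper77.SGC.N0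
    push_cast
    nlinarith
  have hfin := hp' ![x 0, x2] x0 ![e 0, e2] T g2 g0 a0 U2 U ρ ν
    (by
      intro j i
      fin_cases j
      · exact hAl.nd 0 i
      · exact hnd2 i)
    hAl.nd0
    (by
      intro j
      fin_cases j
      · exact hAl.up 0
      · exact hup2)
    hAl.up0
    (by
      intro j
      have hθT : θ * T ≤ θp ⟨(i0, i'), hi⟩ * T := mul_le_mul_of_nonneg_right hb3 hT0
      fin_cases j
      · exact (hAl.near 0).trans hθT
      · exact hnr2.trans hθT)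
    (hAl.exc 0) (hAl.off 0) (hb4.trans (hK1.trans hbig2))
    ((mul_le_mul_of_nonneg_right (hb4.trans hK1) hq2.le).trans hgr2)
    ((mul_le_mul_of_nonneg_right (hb4.trans hK1) hq0.le).trans (hAl.bigT 0))
    hg2 hg0 hg2d hg0d hg2h hg0h hg2z hg0z hNN hder2 ha0x hU2 hU
    (hred.mono (by
      show CR * (1 + C0 * 4 ^ e 0) ≤ C1 * 4 ^ e 0
      have h1 : CR * (1 + C0 * (4 : ℝ) ^ e 0) ≤ CR * ((1 + C0) * 4 ^ e 0) := by
        refine mul_le_mul_of_nonneg_left ?_ hCR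
        linarith
      have h2 : 0 ≤ CW * ((2 * M + 2) * (1 + C0)) * (4 : ℝ) ^ e 0 := by positivity
      rw [hC1]
      linarith))
    (hredg.mono (by
      show CW * ((((N0 M e2 : ℕ) : ℝ) + 1) * (1 + C0 * (4 ^ e 0 / 4 ^ e2))) ≤ C1 * 4 ^ e 0
      have h1 : (((N0 M e2 : ℕ) : ℝ) + 1) * (1 + C0 * (4 ^ e 0 / 4 ^ e2)) ≤
          ((2 * M + 2) * 4 ^ e2) * ((1 + C0) * (4 ^ e 0 / 4 ^ e2)) := by
        refine mul_le_mul hN ?_ (by positivity) (by positivity)
        linarith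
      have h2 : ((2 * (M : ℝ) + 2) * 4 ^ e2) * ((1 + C0) * (4 ^ e 0 / 4 ^ e2)) =
          (2 * M + 2) * (1 + C0) * 4 ^ e 0 := by
        field_simp
      have h3 : CW * ((((N0 M e2 : ℕ) : ℝ) + 1) * (1 + C0 * (4 ^ e 0 / 4 ^ e2))) ≤
          CW * ((2 * M + 2) * (1 + C0) * 4 ^ e 0) :=
        mul_le_mul_of_nonneg_left (h1.trans h2.le) hCW
      have h4 : 0 ≤ CR * (1 + C0) * (4 : ℝ) ^ e 0 := by positivity
      rw [hC1]
      linarith))
  have hCle : Cp ⟨(i0, i'), hi⟩ ≤ C' + (C0 + C2 * (1 + C0)) := by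
    have : 0 ≤ C0 + C2 * (1 + C0) := by positivity
    linarith
  have hDle : Dp ⟨(i0, i'), hi⟩ ≤ max D' (max D0 D2) := hb1.trans (le_max_left _ _)
  rcases hfin with h | h | h
  · exact hcon1 (Lo_mono h hDle hCle)
  · exact hcon2 (Lo_mono h hDle (mul_le_mul_of_nonneg_right hCle (by positivity)))
  · exact hcon3 (Lo_mono h hDle (mul_le_mul_of_nonneg_right hCle (by positivity)))

end

end Pool.Agent.Helper68.T3
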