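import Pool.Agent.Helper68.T3.GoalsT
import Pool.Agent.Helper68.VN.AsmPG

/-!
# Project T3 (MP_a41896_nt): assembly of theorem PG3
-/

set_option autoImplicit false

open MvPolynomial

namespace Pool.Agent.Helper68.T3

open WeierstrassCurve Height Height.AdmissibleAbsValues
open Pool.Agent.Helper29.BL Pool.Agent.Helper92.Ru Pool.Agent.Helper42.SG
open Pool.Agent.Helper68.VN
open Pool.Agent.Helper77.SGC (N0)
open Pool.Agent.Helper5.UN (CodimGT cH)
open Pool.Agent.Helper60.HC (Lo Al rhs nrs)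
open Pool.Agent.Helper60.T3 (NN)
open Pool.Agent.Helper92.SGE (MINA)

noncomputable section

set_option maxHeartbeats 1600000 in
/-- Theorem PG3 from its ingredients. -/
theorem pg3 (hAUX : AUX3) (hZ : ZE3) (hTAY : TAYW3) (hLAW : LAW3) (hLOC : LOC3) (hGLOB : GLOB3)
    (hNUM : NUM3) (hEDUP : EDUP) (hELAW : ELAW) (hELOC : ELOC) (hLAWH : LAWH)
    (hEUP : EUP) (hMINA : MINA) : PG3 := by
  classical
  intro D0
  obtain ⟨h0, hh0, hZ⟩ := hZ D0
  refine ⟨h0, hh0, ?_⟩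
  intro K _ _ _ σ _ _ _ W hW H c₀ hH Df J _ f hDf hdeg p c d B' hd hB' hp hcen M k0 S0 ε C0 C1
    i' i0 hi hM hε hk hC0 hC1 hcount
  -- constants
  have hc₀ : 0 ≤ c₀ := by
    obtain ⟨i⟩ := (inferInstance : Nonempty σ)
    exact (abs_nonneg _).trans ((hH i).near 0)
  obtain ⟨CA, Bk, hCA, hBk, hA⟩ := hAUX K σ W J f Df p c d B' hd hB' hp hcen M k0 D0 h0 S0 i' i0
    hi hM hh0 hcount
  obtain ⟨BT, hBT, hT⟩ := hTAY K σ W J Df f D0 hDf hdeg
  have hU1 := fun i => (hEUP K (W i)).1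
  have hU2 := fun i => (hEUP K (W i)).2
  choose BU hBU hBU2 using hU2
  have hE0 : ∀ i, ∃ B : AbsoluteValue K ℝ → ℝ, PlC B ∧ ∀ (v : AbsoluteValue K ℝ)
      (P Q : (W i).Point) (e : ℕ), P ≠ 0 → Q ≠ 0 → (2 ^ e) • P + Q ≠ 0 →
      Mv v (xc P) ^ (2 * 4 ^ e) * Mv v (xc Q) ^ 2 ≤ B v ^ (4 ^ e) *
        max (v (law (W i) e false (xc P) (xc Q) (ps P * ps Q)).1)
          (v (law (W i) e false (xc P) (xc Q) (ps P * ps Q)).2) *
        Mv v (xc ((2 ^ e) • P + Q)) := fun i => by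
    haveI := hW i
    exact hELOC K (W i)
  choose BE hBE hBE2 using hE0
  have hBUp : PlC (K := K) fun v => ∏ i, BU i v := plc_prod' BU hBU Finset.univ
  have hBEp : PlC (K := K) fun v => ∏ i, BE i v := plc_prod' BE hBE Finset.univ
  have hBL : PlC (K := K) fun v => BT v * ∏ i, BU i v := plc_mul' hBT hBUp
  obtain ⟨Bt, hBt, hLo⟩ := hLOC K σ W J f Df M k0 Bk (fun v => BT v * ∏ i, BU i v)
    (fun v => ∏ i, BE i v) hBk hBL hBEp
  obtain ⟨CG, hCG, hGl⟩ := hGLOB K σ J Df f hdeg M k0 (2 * D0 + 9) Bt BT hBt hBT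
  set CA2 : ℝ := CA * (2 + C1) with hCA2
  have hCA20 : 0 ≤ CA2 := by positivity
  obtain ⟨D', C', K1, hC', hZ'⟩ := hZ K σ W hW C0 hC0 M CA2 hM hCA20
  have hM0 : (0 : ℝ) < M := by exact_mod_cast hM
  obtain ⟨K2, hNu⟩ := hNUM (Fintype.card σ) M k0 (2 * D0 + 9) ε (1 / M) c₀ CG CA2 C0 hε hk
    (by positivity) (by rw [mul_one_div_cancel hM0.ne']) hc₀ hCG hCA20 hC0
  refine ⟨D', C', 1 / M, max (max K1 K2) 1, by positivity, hC', ?_⟩
  intro x x0 e T g2 g0 a0 U2 U _ _ ρ ν hnd hnd0 hup hup0 hnr hexc hoff0 hbig hgrow hbigT hg2 hg0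
    hg2d hg0d hg2h hg0h hg2z hg0z hNN hder ha0 hU2c hU hred hredg
  by_contra hcon
  push Not at hcon
  obtain ⟨hcon1, hcon2, hcon3⟩ := hcon
  have hK1 : K1 ≤ max (max K1 K2) 1 := (le_max_left _ _).trans (le_max_left _ _)
  have hK2 : K2 ≤ max (max K1 K2) 1 := (le_max_right _ _).trans (le_max_left _ _)
  have hK3 : 1 ≤ max (max K1 K2) 1 := le_max_right _ _
  have hq0 : ∀ j : Fin 2, (0 : ℝ) < 4 ^ e j := fun j => by positivity
  have hq10 : (4 : ℝ) ^ e 1 ≤ 4 ^ e 0 := by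
    have h2 : 1 * (4 : ℝ) ^ e 1 ≤ max (max K1 K2) 1 * 4 ^ e 1 :=
      mul_le_mul_of_nonneg_right hK3 (hq0 1).le
    linarith
  have hsq : (sqB e : ℝ) ≤ 2 * 4 ^ e 0 := by
    unfold sqB
    push_cast
    rw [Fin.sum_univ_two]
    linarith
  -- the sign change
  set x' : Fin 2 → ∀ i, (W i).Point := fun j i =>
    if (2 ^ e j) • x j i + x0 i = 0 then -(x j i) else x j i with hx'
  have hx'c : ∀ j i, xc (x' j i) = xc (x j i) := by
    intro j i
    rw [hx']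
    dsimp only
    split_ifs
    · exact xc_neg'' _
    · rfl
  have hx'0 : ∀ j i, x' j i ≠ 0 := by
    intro j i
    rw [hx']
    dsimp only
    split_ifs
    · exact neg_ne_zero.mpr (hnd j i).1
    · exact (hnd j i).1
  have hx'p : ∀ j i, ps (x' j i) ≠ 0 := by
    intro j i
    rw [hx']
    dsimp only
    split_ifs
    · rw [ps_neg'']
      exact neg_ne_zero.mpr (hnd j i).2
    · exact (hnd j i).2
  have hx'H : ∀ j i, H i (x' j i) = H i (x j i) := by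
    intro j i
    rw [hx']
    dsimp only
    split_ifs
    · exact (hH i).quad.neg _
    · rfl
  have hx'w : ∀ j i, (2 ^ e j) • x' j i + x0 i ≠ 0 := by
    intro j i
    rw [hx']
    dsimp only
    split_ifs with h
    · have h1 : (2 ^ e j) • (-(x j i)) + x0 i = x0 i + x0 i := by
        rw [smul_neg, eq_neg_of_add_eq_zero_left h, neg_neg]
      rw [h1]
      haveI := hW i
      exact two_nsmul_ne hEDUP (hU1 i) (x0 i) (hnd0 i).1 (hnd0 i).2
    · exact h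
  have hx'n : ∀ j i, H i ((2 ^ e j) • x' j i - x0 i) ≤ H i ((2 ^ e j) • x j i - x0 i) := by
    intro j i
    rw [hx']
    dsimp only
    split_ifs with h
    · have h1 : (2 ^ e j) • (-(x j i)) - x0 i = 0 := by
        rw [smul_neg, eq_neg_of_add_eq_zero_left h]
        abel
      rw [h1, (hH i).quad.zero]
      exact (hH i).quad.nonneg _
    · exact le_rfl
  set ξ : Fin 2 → σ → K := fun j i => xc (x' j i) with hξ
  set ψ : Fin 2 → σ → K := fun j i => ps (x' j i) with hψ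
  set z0 : σ → K := fun i => xc (x0 i) with hz0
  set p0 : σ → K := fun i => ps (x0 i) with hp0
  have hξx : ∀ j, ξ j = xs (x j) := by
    intro j
    funext i
    exact hx'c j i
  have hcurve : ∀ j i, ψ j i ^ 2 = Bf (W i) (ξ j i) ∧ ψ j i ≠ 0 := fun j i =>
    ⟨hU1 i _ (hx'0 j i), hx'p j i⟩
  have hcurve0 : ∀ i, p0 i ^ 2 = Bf (W i) (z0 i) := fun i => hU1 i _ (hnd0 i).1
  have hoff : ∃ k, eval (ξ 0) (f k) ≠ 0 := by
    rw [hξx 0]
    exact hoff0
  have hg2z' : eval (ξ 1) g2 = 0 := by rw [hξx 1]; exact hg2z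
  have hder' : eval (ξ 1) (pderiv i' g2) ≠ 0 := by rw [hξx 1]; exact hder
  have ha0' : eval (ξ 1) a0 ≠ 0 := by rw [hξx 1]; exact ha0
  obtain ⟨X, Ψ, hTay, hNrm⟩ := hT ξ ψ g2 i' hcurve hoff hg2d hg2z' hder'
  have hH0 : 0 ≤ C1 * (4 : ℝ) ^ e 0 := by positivity
  obtain ⟨cc, hcc0, hccI, hccH, hccS, hKEY⟩ := hA e U2 U ρ ν z0 p0 g2 a0 (C1 * 4 ^ e 0) hU2c hU
    hH0 hred hredg
  set AA : ℝ := CA * (sqB e + C1 * 4 ^ e 0) with hAA
  have hAA0 : 0 ≤ AA := by positivity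
  have hAA2 : AA ≤ CA2 * 4 ^ e 0 := by
    rw [hAA, hCA2, mul_assoc]
    refine mul_le_mul_of_nonneg_left ?_ hCA
    linarith
  have hNN' : NN W g2 (ξ 1) i0 * NN W g0 z0 i' ≠ NN W g0 z0 i0 * NN W g2 (ξ 1) i' := by
    rw [hξx 1]; exact hNN
  have hz := hZ' i' i0 e cc ξ ψ z0 p0 g2 g0 X Ψ hi hcc0 hccI
    (fun α => (hccH α).trans (Real.exp_le_exp.mpr hAA2)) hccS hTay (fun j i => (hcurve j i).2)
    hcurve0 hg2 hg0 hg2d hg0d hg2h hg0h hg2z' hg0z hNN' (hK1.trans hbig)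
    ((mul_le_mul_of_nonneg_right hK1 (hq0 1).le).trans hgrow)
  rcases hz with hj | hj | hb | ⟨α1, hα1, hα2⟩
  · rw [hξx 0] at hj
    exact hcon1 hj
  · rw [hξx 1] at hj
    exact hcon2 hj
  · exact hcon3 hb
  -- the minimal coefficient
  have hne : ¬ ∀ α, wt (fun h : Fin 2 × σ => 4 ^ e h.1) α < 1 →
      MvPowerSeries.coeff α (PT W 2 M 1 e cc (fun _ _ => false) X Ψ z0 p0) = 0 := fun h =>
    hα2 (h α1 hα1)
  have hd1 : ∀ h : Fin 2 × σ, 1 ≤ 4 ^ e h.1 := fun h => Nat.one_le_pow _ _ (by norm_num)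
  obtain ⟨α, hα, hδ0, hmin⟩ := hMINA K _ _ (PT W 2 M 1 e cc (fun _ _ => false) X Ψ z0 p0) _
    hd1 hne
  -- the laws
  set ω : Fin 2 → σ → K := fun j i => xc ((2 ^ e j) • x' j i + x0 i) with hω
  have hlaw : ∀ j i (b : Bool), lawP W e b ξ ψ z0 p0 j i =
      law (W i) (e j) b (xc (x' j i)) (xc (x0 i)) (ps (x' j i) * ps (x0 i)) := by
    intro j i b
    unfold lawP
    rw [mapS_self]
  have h2K : (2 : K) ≠ 0 := two_ne_zero
  have hEL : ∀ j i, _ := fun (j : Fin 2) (i : σ) => by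
    haveI := hW i
    exact hELAW K (W i) (x' j i) (x0 i) (e j) h2K (hx'0 j i) (hnd0 i).1 (hx'w j i)
  have hl0 : ∀ j i, (lawP W e false ξ ψ z0 p0 j i).1 ≠ 0 ∨
      (lawP W e false ξ ψ z0 p0 j i).2 ≠ 0 := by
    intro j i
    rw [hlaw]
    exact (hEL j i).1
  have hl1 : ∀ j i, (lawP W e true ξ ψ z0 p0 j i).1 = ω j i * (lawP W e false ξ ψ z0 p0 j i).1 ∧
      (lawP W e true ξ ψ z0 p0 j i).2 = ω j i * (lawP W e false ξ ψ z0 p0 j i).2 := by
    intro j i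
    rw [hlaw, hlaw]
    exact ⟨(hEL j i).2.2.2.1, (hEL j i).2.2.2.2⟩
  have hlc := fun lam => hLAW K σ W 2 M 1 e cc ξ ψ ω z0 p0 X Ψ
    (fun h : Fin 2 × σ => 4 ^ e h.1) α lam hTay.toTayC hcurve0 hd1 hl0 hl1 hmin
  have hEv : ∀ (v : AbsoluteValue K ℝ) j i, Mv v (ξ j i) ^ (2 * 4 ^ e j) * Mv v (z0 i) ^ 2 ≤
      (∏ i, BE i v) ^ (4 ^ e j) * max (v (lawP W e false ξ ψ z0 p0 j i).1)
        (v (lawP W e false ξ ψ z0 p0 j i).2) * Mv v (ω j i) := by
    intro v j i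
    rw [hlaw]
    refine (hBE2 i v (x' j i) (x0 i) (e j) (hx'0 j i) (hnd0 i).1 (hx'w j i)).trans ?_
    refine mul_le_mul_of_nonneg_right (mul_le_mul_of_nonneg_right ?_ ?_)
      (zero_le_one.trans (le_max_left _ _))
    · exact pow_le_pow_left₀ (zero_le_one.trans ((hBE i).one_le v)) (le_prod_plc BE hBE i v) _
    · exact le_max_of_le_left (v.nonneg _)
  have hmono : ∀ (v : AbsoluteValue K ℝ), BT v ≤ BT v * ∏ i, BU i v := fun v =>
    le_mul_of_one_le_right (zero_le_one.trans (hBT.one_le v)) (hBUp.one_le v)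
  have hpmono : ∀ (v : AbsoluteValue K ℝ) (j : Fin 2), ∏ i, (BT v * Mv v (ξ j i)) ^ Df ≤
      ∏ i, (BT v * (∏ i, BU i v) * Mv v (ξ j i)) ^ Df := by
    intro v j
    refine Finset.prod_le_prod (fun i _ => ?_) (fun i _ => ?_)
    · have h3 : (0 : ℝ) ≤ Mv v (ξ j i) := zero_le_one.trans (le_max_left _ _)
      have h4 : 0 ≤ BT v := zero_le_one.trans (hBT.one_le v)
      positivity
    · have h3 : (0 : ℝ) ≤ Mv v (ξ j i) := zero_le_one.trans (le_max_left _ _)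
      have h4 : 0 ≤ BT v := zero_le_one.trans (hBT.one_le v)
      exact pow_le_pow_left₀ (by positivity) (mul_le_mul_of_nonneg_right (hmono v) h3) _
  have hloc : ∀ (v : AbsoluteValue K ℝ) (s : ℝ), (∀ α, v (cc α) ≤ s) → _ := fun v s hs =>
    hLo e cc ξ ψ ω z0 p0 g2 a0 i' X Ψ α _ v (rad3 Df f (2 * D0 + 9) g2 i' (BT v) v ξ ψ)
      (rho Df f v (ξ 0)) s hKEY hTay ha0' hcurve0 hs (hNrm v).2.1 (hNrm v).1.1 (hNrm v).1.2
      (fun j i => by
        have h1 := (hNrm v).2.2.1 j i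
        have h2 := hmono v
        have h3 : (0 : ℝ) ≤ Mv v (ξ j i) := zero_le_one.trans (le_max_left _ _)
        exact ⟨NPS_mono h1.1 (mul_le_mul_of_nonneg_right h2 h3),
          NPS_mono h1.2 (mul_le_mul_of_nonneg_right h2 (by positivity))⟩)
      (fun k => NPS_mono ((hNrm v).2.2.2.1 k)
        (mul_le_mul_of_nonneg_left (hpmono v 0) (hNrm v).1.1.le))
      (fun k => NPS_mono ((hNrm v).2.2.2.2 k) (hpmono v 1))
      (fun i => by
        refine (hBU2 i v (x0 i)).trans (mul_le_mul_of_nonneg_right ?_ (by positivity))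
        exact (le_prod_plc BU hBU i v).trans
          (le_mul_of_one_le_left (zero_le_one.trans (hBUp.one_le v)) (hBT.one_le v)))
      (hEv v) hlc
  have hLH : ∀ j i, FS (fun v => Real.log (max (v (lawP W e false ξ ψ z0 p0 j i).1)
        (v (lawP W e false ξ ψ z0 p0 j i).2))) ∧
      PS (fun v => Real.log (max (v (lawP W e false ξ ψ z0 p0 j i).1)
        (v (lawP W e false ξ ψ z0 p0 j i).2))) = hx ((2 ^ e j) • x' j i - x0 i) := by
    intro j i
    haveI := hW i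
    have h := hLAWH K (W i) (x' j i) (x0 i) (e j) (hx'0 j i) (hnd0 i).1 (hx'w j i)
    rw [hlaw]
    exact h
  have hdl : dlt g2 i' (ξ 1) (ψ 1) ≠ 0 := by
    unfold dlt
    have h4 : (4 : K) ≠ 0 := by
      have := (Nat.cast_ne_zero (R := K)).mpr (show (4 : ℕ) ≠ 0 by norm_num)
      exact_mod_cast this
    exact mul_ne_zero (mul_ne_zero h4 (pow_ne_zero _ (hcurve 1 i').2)) hder'
  have hglob := hGl e _ cc AA ξ ψ z0 g2 i' (fun j i => lawP W e false ξ ψ z0 p0 j i) α _ hcc0 hAA0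
    hccI hccH hδ0 hl0 (fun j i => (hLH j i).1) hoff hdl hloc
  -- the numbers
  have hnear := fun i (P : (W i).Point) => abs_le.mp ((hH i).near P)
  have hcard : (∑ _i : σ, c₀) = Fintype.card σ * c₀ := by
    rw [Finset.sum_const, Finset.card_univ, nsmul_eq_mul]
  refine hNu σ (fun j => 4 ^ e j) (fun j => nrs H (x j))
    (fun j => ∑ i, hx ((2 ^ e j) • x' j i - x0 i)) (cH Df f (ξ 0)) (Real.log (PH g2)) T AA
    (∑ i, logHeight₁ (z0 i)) (fun h => logHeight₁ (ξ h.1 h.2)) (fun h => (α h : ℝ)) rfl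
    ?_ hq10 (hK2.trans hbig) ?_ ?_ ?_ ?_ ?_ ?_ ?_ ?_ ?_ ?_ hAA2 ?_ ?_
  · exact one_le_pow₀ (by norm_num)
  · exact (mul_le_mul_of_nonneg_right hK2 (hq0 0).le).trans hbigT
  · exact fun j => ⟨Finset.sum_nonneg fun i _ => (hH i).quad.nonneg _, hup j⟩
  · show ε * T ≤ 4 ^ e 0 * cH Df f (ξ 0)
    rw [hξx 0]
    exact hexc
  · exact cH_nn Df f (ξ 0)
  · intro j
    show ∑ i, hx ((2 ^ e j) • x' j i - x0 i) ≤ 1 / M * T + Fintype.card σ * c₀
    rw [← hcard]
    calc ∑ i, hx ((2 ^ e j) • x' j i - x0 i)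
        ≤ ∑ i, (H i ((2 ^ e j) • x j i - x0 i) + c₀) := by
          refine Finset.sum_le_sum fun i _ => ?_
          have h1 := hnear i ((2 ^ e j) • x' j i - x0 i)
          have h2 := hx'n j i
          linarith [h1.1, h1.2]
      _ = nrs H ((2 ^ e j) • x j - x0) + ∑ _i : σ, c₀ := by
          rw [Finset.sum_add_distrib]; rfl
      _ ≤ _ := by linarith [hnr j]
  · show ∑ i, logHeight₁ (z0 i) ≤ 2 * T + Fintype.card σ * c₀
    rw [← hcard]
    calc ∑ i, logHeight₁ (z0 i) ≤ ∑ i, (H i (x0 i) + c₀) := by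
          refine Finset.sum_le_sum fun i _ => ?_
          have h1 := hnear i (x0 i)
          have h2 : hx (x0 i) = logHeight₁ (z0 i) := rfl
          linarith [h1.1, h1.2]
      _ = nrs H x0 + ∑ _i : σ, c₀ := by
          rw [Finset.sum_add_distrib]; rfl
      _ ≤ _ := by linarith [hup0]
  · intro h
    exact zero_le_logHeight₁ _
  · intro j
    show ∑ i, logHeight₁ (ξ j i) ≤ nrs H (x j) + Fintype.card σ * c₀
    rw [← hcard]
    calc ∑ i, logHeight₁ (ξ j i) ≤ ∑ i, (H i (x j i) + c₀) := by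
          refine Finset.sum_le_sum fun i _ => ?_
          have h1 := hnear i (x' j i)
          have h2 : hx (x' j i) = logHeight₁ (ξ j i) := rfl
          have h3 := hx'H j i
          linarith [h1.1, h1.2]
      _ = _ := by
          rw [Finset.sum_add_distrib]; rfl
  · exact fun h => Nat.cast_nonneg _
  · have h1 : wt (fun h : Fin 2 × σ => 4 ^ e h.1) α =
        ∑ h : Fin 2 × σ, (α h : ℝ) / 4 ^ e h.1 := by
      unfold wt
      refine Finset.sum_congr rfl fun h _ => ?_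
      push_cast
      rfl
    rw [← h1]
    exact hα
  · show (4 : ℝ) ^ e 1 * Real.log (PH g2) ≤ C0 * 4 ^ e 0
    have h1 := mul_le_mul_of_nonneg_left hg2h (hq0 1).le
    have h2 : (4 : ℝ) ^ e 1 * (C0 * (4 ^ e 0 / 4 ^ e 1)) = C0 * 4 ^ e 0 := by
      field_simp
    linarith
  · have h1 : ∑ j, (M * (∑ i, hx ((2 ^ e j) • x' j i - x0 i)) +
          ((4 : ℝ) ^ e j + 2) * ∑ i, logHeight₁ (ξ j i)) =
        ∑ j, ∑ i, (M * PS (fun v => Real.log (max (v (lawP W e false ξ ψ z0 p0 j i).1)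
          (v (lawP W e false ξ ψ z0 p0 j i).2))) + ((4 : ℝ) ^ e j + 2) * logHeight₁ (ξ j i)) := by
      refine Finset.sum_congr rfl fun j _ => ?_
      rw [Finset.sum_add_distrib, ← Finset.mul_sum, ← Finset.mul_sum]
      refine congrArg₂ _ (congrArg _ (Finset.sum_congr rfl fun i _ => ?_)) rfl
      rw [(hLH j i).2]
    have h2 : ((sqB e : ℕ) : ℝ) = ∑ j, (4 : ℝ) ^ e j := by
      unfold sqB
      push_cast
      rfl
    rw [h2] at hglob
    rw [h1]
    exact hglob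

end

end Pool.Agent.Helper68.T3
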