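import Pool.Agent.Helper68.VN.GoalsA
import Pool.Agent.Helper68.VN.GoalsN
import Pool.Agent.Helper68.VN.GoalsT

/-!
# Project T3, theorem P3 (MP_a41896_nt): definitions

Three points `z` (block `0`, `q_0 = 4 ^ e 0`), `x_2` (block `1`, `q_1 = 4 ^ e 1`), `x_0` (constant).  The auxiliary function is
`PB .. 2 M 1 e c` of `Helper68/VN`; `z` is near the centre `f`, `x_2` lies on the surface `g = 0` of small height, `x_0` has
relations of small height.  `i'` is the coordinate eliminated on the surface, `i0` another coordinate.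
-/

set_option autoImplicit false

open MvPolynomial

namespace Pool.Agent.Helper68.T3

open WeierstrassCurve Height
open Pool.Agent.Helper29.BL Pool.Agent.Helper92.Ru Pool.Agent.Helper42.SG
open Pool.Agent.Helper68.VN
open Pool.Agent.Helper77.SGC (N0)

noncomputable section

variable {K : Type} [Field K] {σ : Type}

/-- the support of the unknowns: the index `l` of the coordinate `i'` in the block `1` is `0`, that of `i0` is `< q_1 / h0` -/
def Sup3 (i' i0 : σ) (h0 : ℕ) {M : ℕ} {e : Fin 2 → ℕ} (α : Ix σ 2 M 1 e) : Prop :=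
  (α.1 1 i').1.val = 0 ∧ (α.1 1 i0).1.val * h0 < 4 ^ e 1

/-- relation data on the surface `g = 0`: the forms `ρ u` on polynomials of partial degrees `≤ N` -/
structure RedG [NumberField K] [Fintype σ] [DecidableEq σ] (g a0 : MvPolynomial σ K) (N : ℕ)
    {U : Type} (ρ : U → (σ → ℕ) → K) (H : ℝ) : Prop where
  int : ∀ u s, IsIntegral ℤ (ρ u s)
  hs : ∀ u s, NumberField.house (ρ u s) ≤ Real.exp H
  red : ∀ (A : Type) [CommRing A] [Algebra K A] (X : σ → A), aeval X g = 0 →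
    (∀ y : A, aeval X a0 * y = 0 → y = 0) → ∀ G : (σ → ℕ) → K,
    (∀ u, ∑ s ∈ box σ N, ρ u s * G s = 0) →
    ∑ s ∈ box σ N, algebraMap K A (G s) * ∏ i, X i ^ s i = 0

/-- the conditions on `c`: block `0`: bad index `t` of the centre; block `1`: relations `ρ` on the surface; `x_0`: relations `ν` -/
def Cond3 [Fintype σ] [DecidableEq σ] (S : σ → ℕ → Bool → Fin 2 → ℕ → ℕ → ℕ → ℕ → K)
    (M k0 : ℕ) (e : Fin 2 → ℕ) (T0 : Type) (gr : T0 → ℕ) (r : T0 → (σ → ℕ) → K)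
    (U2 U : Type) (ρ : U2 → (σ → ℕ) → K) (ν : U → (σ → ℕ) → K) (c : Ix σ 2 M 1 e → K) : Prop :=
  ∀ (l : Fin 2 → σ → Bool) (μ : Fin 2 → σ → Fin 2) (t : T0), gr t < k0 * 4 ^ e 0 →
    ∀ (u2 : U2) (u : U), ∑ α : Ix σ 2 M 1 e, c α *
      ∑ g1 ∈ box σ (2 * M), ∑ g2 ∈ box σ (2 * M),
        Gam S M (e 0) (r t) (l 0) (μ 0) g1 (α.1 0) *
          Gam S M (e 1) (ρ u2) (l 1) (μ 1) g2 (α.1 1) * ν u (fun i => g1 i + g2 i) = 0

/-- the key inequality: vanishing along the centre in the block `0`, relations on the surface `g = 0` in the block `1` -/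
def KeyB3 [Fintype σ] [DecidableEq σ] {J : Type} (W : σ → Affine K) (f : J → MvPolynomial σ K)
    (D M k0 : ℕ) (g a0 : MvPolynomial σ K) (x0 ψ0 : σ → K) (e : Fin 2 → ℕ)
    (c : Ix σ 2 M 1 e → K) (B : AbsoluteValue K ℝ → ℝ) : Prop :=
  ∀ (v : AbsoluteValue K ℝ) (A : Type) [CommRing A] [Algebra K A] (N : A → ℝ → Prop), NFr v N →
    ∀ (X Ψ : Fin 2 → σ → A) (a : Fin 2 → σ → ℝ) (ρ s b : ℝ),
      OnB W X Ψ (cn A x0) (cn A ψ0) → aeval (X 1) g = 0 →
      (∀ y : A, aeval (X 1) a0 * y = 0 → y = 0) → (∀ j i, 1 ≤ a j i) → 1 ≤ b →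
      0 < ρ → ρ ≤ 1 → (∀ j i, N (X j i) (a j i)) →
      (∀ j i, N (Ψ j i) (b * a j i ^ 2)) → (∀ i, v (ψ0 i) ≤ b * Mv v (x0 i) ^ 2) →
      (∀ k, N (aeval (X 0) (f k)) (ρ * ∏ i, a 0 i ^ D)) →
      (∀ k, N (aeval (X 1) (f k)) (∏ i, a 1 i ^ D)) → (∀ α, v (c α) ≤ s) →
      ∀ lam : Fin 2 → σ → Bool,
      N (PB (mapS A W) 2 M 1 e (fun α => algebraMap K A (c α)) lam X Ψ (cn A x0) (cn A ψ0))
        (s * b ^ (4 * Fintype.card σ) * B v ^ sqB e * keyV v M 1 k0 e a ![ρ, 1] x0)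

/-- the maximum of the coefficients -/
def gsup (v : AbsoluteValue K ℝ) (g : MvPolynomial σ K) : ℝ :=
  ⨆ s : g.support, v (coeff s.1 g)

/-- `δ = 4 ψ² ∂_(i') g (ξ)` -/
def dlt (g : MvPolynomial σ K) (i' : σ) (ξ ψ : σ → K) : K :=
  4 * ψ i' ^ 2 * eval ξ (pderiv i' g)

/-- the radii of the Taylor expansions: block `0` as `rad`, block `1` `|δ|² / (b |g|² (∏ M_v(ξ_i))^E)` -/
def rad3 [Fintype σ] {J : Type} (D : ℕ) (f : J → MvPolynomial σ K) (E : ℕ)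
    (g : MvPolynomial σ K) (i' : σ) (b : ℝ) (v : AbsoluteValue K ℝ) (ξ ψ : Fin 2 → σ → K)
    (h : Fin 2 × σ) : ℝ :=
  if h.1 = 0 then rho D f v (ξ 0) / (b * Mv v (ξ 0 h.2) ^ 2)
  else v (dlt g i' (ξ 1) (ψ 1)) ^ 2 / (b * gsup v g ^ 2 * (∏ i, Mv v (ξ 1 i)) ^ E)

/-- `(X, Ψ)` is an expansion of the points `(ξ, ψ)` (constant terms only) -/
structure TayC (W : σ → Affine K) {n : ℕ} {τ : Type} (ξ ψ : Fin n → σ → K)
    (X Ψ : Fin n → σ → MvPowerSeries τ K) : Prop where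
  on : ∀ j i, Ψ j i ^ 2 = Bf (mapS _ W i) (X j i)
  cX : ∀ j i, MvPowerSeries.constantCoeff (X j i) = ξ j i
  cst : ∀ j i, MvPowerSeries.constantCoeff (Ψ j i) = ψ j i

/-- the Taylor expansion of `z` (block `0`) and of `x_2` on the surface `g = 0` (block `1`) -/
structure TayW (W : σ → Affine K) (ξ ψ : Fin 2 → σ → K) (i' : σ) (g : MvPolynomial σ K)
    (X Ψ : Fin 2 → σ → MvPowerSeries (Fin 2 × σ) K) : Prop extends TayC W ξ ψ X Ψ where
  eqX : ∀ j i, (j, i) ≠ ((1, i') : Fin 2 × σ) → X j i =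
    MvPowerSeries.C (ξ j i) + MvPowerSeries.C (4 * ψ j i ^ 2) * MvPowerSeries.X (j, i)
  rel : aeval (X 1) g = 0

end

end Pool.Agent.Helper68.T3
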