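import Pool.Agent.Helper68.T3.Defs

/-!
# Project T3, theorem P3 (MP_a41896_nt), module A: relations on the surface, count, conditions, key inequality

All goals are independent (named goals may be hypotheses of other goals as indicated).  `m = |σ|`, `q_j = 4 ^ e j`.  Most goals are
adaptations of landed files of `Pool/Agent/*/VN/`: copy the file and change it.
-/

set_option autoImplicit false

open MvPolynomial

namespace Pool.Agent.Helper68.T3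

open WeierstrassCurve Height
open Pool.Agent.Helper29.BL Pool.Agent.Helper92.Ru Pool.Agent.Helper42.SG
open Pool.Agent.Helper68.VN
open Pool.Agent.Helper77.SGC (N0 HOUS)
open Pool.Agent.Helper76.SGC (NFB)

noncomputable section

/-- **PSD3** (pseudo-division by a polynomial of small height, uniform in the exponent). No hypotheses.
PROOF. Adapt the landed proof of PSDV: `Pool/Agent/Helper41/VN/PSDV.lean` (length of a polynomial = sum of the houses of its coefficients, submultiplicative; SCAL: scaling of `g` to integral coefficients of house `≤ exp (C1 (1 + A))`). Write `g = ∑_(k ≤ dd) a_k X_(i')^k`, `a_k` without `X_(i')`, `a_dd ≠ 0` (as a polynomial), `dd ≤ D0`, `a0 := a_dd`: its coefficients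
are among those of `g`, so `log PH a0 ≤ log PH g ≤ A` and its degrees are `≤ D0`. `w` = the scaling constant: `w * g` has integral coefficients and length `L ≤ exp (C1 (1 + A))`, `1 ≤ L` (enlarge `L`); put `a'_k := w a_k`. If `dd = 0` then `g = a0`, so `aeval X a0 = 0`, and `R k t := if N = 0 ∧ t = 0 then 1 else 0` works.
Let `dd ≥ 1`. Recursion: `b 0 t = [t = 0]`, `b (k+1) t = a'_dd b k (t-1) - b k (dd-1) a'_t` (`t < dd`, `b k (-1) = 0`; `b k t = 0` for `t ≥ dd`): polynomials without `X_(i')`, degrees `≤ k D0`, integral coefficients, length `≤ (2L)^k`, and `a'_dd(X)^k X_(i')^k = ∑_(t < dd) b k t (X) X_(i')^t` whenever `g(X) = 0` in a commutative `K`-algebra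
(`a'_dd X^dd = - ∑_(t<dd) a'_t X^t`; induction on `k`). `R k t := a'_dd^(N-k) b k t` (`k ≤ N`; `0` for `k > N`): degrees `≤ N D0`, length `≤ L^N (2L)^N ≤ exp (C (N+1)(1+A))`. The house of a coefficient is `≤` the length. -/
def PSD3 : Prop :=
  ∀ (K : Type) [Field K] [NumberField K] (σ : Type) [Fintype σ] [DecidableEq σ] (D0 : ℕ),
    ∃ C : ℝ, 0 ≤ C ∧ ∀ (g : MvPolynomial σ K) (i' : σ) (A : ℝ) (N : ℕ), 0 ≤ A → g ≠ 0 →
      (∀ i, g.degreeOf i ≤ D0) → Real.log (PH g) ≤ A →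
      ∃ (a0 : MvPolynomial σ K) (w : K) (R : ℕ → ℕ → MvPolynomial σ K), a0 ≠ 0 ∧
        (∀ i, a0.degreeOf i ≤ D0) ∧ a0.degreeOf i' = 0 ∧ Real.log (PH a0) ≤ A ∧ w ≠ 0 ∧
        (∀ k t i, (R k t).degreeOf i ≤ N * D0) ∧ (∀ k t, (R k t).degreeOf i' = 0) ∧
        (∀ k t s, IsIntegral ℤ (coeff s (R k t)) ∧
          NumberField.house (coeff s (R k t)) ≤ Real.exp (C * ((N + 1) * (1 + A)))) ∧
        ∀ (A' : Type) [CommRing A'] [Algebra K A'] (X : σ → A'), aeval X g = 0 → ∀ k ≤ N,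
          (algebraMap K A' w * aeval X a0) ^ N * X i' ^ k =
            ∑ t ∈ Finset.range (D0 + 1), aeval X (R k t) * X i' ^ t

/-- **REDW** (relations on a surface of small height). Hypothesis allowed: PSD3.
PROOF. (Compare RELP, `Pool/Agent/Helper70/VN/RELP.lean`.) `a0`, `w`, `R` from PSD3 (for this `N`). For `s ∈ box N`: `(w a0(X))^N ∏_i X_i^(s_i) = ∑_(t ≤ D0) X_(i')^t R'_(s,t)(X)`, `R'_(s,t) := (∏_(i ≠ i') X_i^(s_i)) * R (s i') t`: no `X_(i')`, degrees `≤ N + N D0`, its coefficients are coefficients of `R (s i') t`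
(`monomial * polynomial`: shift of the exponents) or `0`. `U2 := Fin (D0 + 1) × ({i // i ≠ i'} → Fin (N * (1 + D0) + 1))`, `ρ (t, u) s := coeff (u extended by 0 at i') (R'_(s,t))` if `s ∈ box N`, `0` otherwise: integral, house `≤ exp (C (N+1) (1+A))`. If `∑_s ρ (t,u) s * G s = 0` for all `(t, u)`, then
`(w a0(X))^N ∑_s G_s ∏ X^s = ∑_t X_(i')^t ∑_u (∑_s ρ (t,u) s G_s) ∏ X^u = 0`; divide by the unit `w^N` and cancel `a0(X)` `N` times (hypothesis of `RedG.red`). -/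
def REDW : Prop :=
  ∀ (K : Type) [Field K] [NumberField K] (σ : Type) [Fintype σ] [DecidableEq σ] (D0 : ℕ),
    ∃ C : ℝ, 0 ≤ C ∧ ∀ (g : MvPolynomial σ K) (i' : σ) (A : ℝ) (N : ℕ), 0 ≤ A → g ≠ 0 →
      (∀ i, g.degreeOf i ≤ D0) → Real.log (PH g) ≤ A →
      ∃ a0 : MvPolynomial σ K, a0 ≠ 0 ∧ (∀ i, a0.degreeOf i ≤ D0) ∧ a0.degreeOf i' = 0 ∧
        Real.log (PH a0) ≤ A ∧ ∃ (U2 : Type) (_ : Fintype U2) (ρ : U2 → (σ → ℕ) → K),
          Fintype.card U2 ≤ (D0 + 1) * (N * (1 + D0) + 1) ^ (Fintype.card σ - 1) ∧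
          RedG g a0 N ρ (C * ((N + 1) * (1 + A)))

/-- the rows of the Siegel system -/
abbrev Rows3 (σ : Type) (k0 q : ℕ) (T0 : Type) (gr : T0 → ℕ) (U2 U : Type) : Type :=
  (Fin 2 → σ → Bool) × (Fin 2 → σ → Fin 2) × {t : T0 // gr t < k0 * q} × U2 × U

/-- **CARD3** (the count). No hypotheses. Compare CARDB (`Pool/Agent/Helper83/VN/CARDB.lean`).
PROOF. `N0 M e + 1 = 2·4^e M + 4^e + 1 ≤ 4^e (2M+2)`. Rows `≤ 4^m · 4^m · c (k0 q_0)^p (q_0 (2M+2))^(m-p) · (D0+1) (q_1 (2M+2) (1+D0))^(m-1) · S0` (`N (1+D0) + 1 ≤ (N+1)(1+D0)`), and `q_0^p q_0^(m-p) = q_0^m`.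
Unknowns: `α ↦ α.1` is a bijection (`σ → Fin 1` has one element); block `0`: `(q_0 (M+1))^m`; block `1`: the pairs `(l_i, m_i)`: for `i = i'`: `l = 0`: `M+1` pairs; for `i = i0`: `l h0 < q_1`: with `a` such `l`, `a h0 ≥ q_1` (`l < q_1` follows from `l h0 < q_1`, `h0 ≥ 1`; the `l` are `0, .., a-1` and `l = a` does not satisfy it), `a (M+1)` pairs;
the other `m - 2` coordinates: `q_1 (M+1)` pairs. So `#unknowns * h0 ≥ (q_0 (M+1))^m (M+1)^m q_1^(m-1)`. Multiply the wanted inequality by `h0` and use the count hypothesis times `q_0^m q_1^(m-1)`. -/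
def CARD3 : Prop :=
  ∀ (σ : Type) [Fintype σ] [DecidableEq σ] (M k0 p c D0 h0 S0 : ℕ) (i' i0 : σ) (e : Fin 2 → ℕ)
    (T0 : Type) [Fintype T0] (gr : T0 → ℕ) (U2 U : Type) [Fintype U2] [Fintype U],
    i0 ≠ i' → 1 ≤ h0 → p ≤ Fintype.card σ →
    Nat.card {t : T0 // gr t < k0 * 4 ^ e 0} ≤
      c * (k0 * 4 ^ e 0) ^ p * (N0 M (e 0) + 1) ^ (Fintype.card σ - p) →
    Fintype.card U2 ≤ (D0 + 1) * (N0 M (e 1) * (1 + D0) + 1) ^ (Fintype.card σ - 1) →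
    Fintype.card U ≤ S0 →
    2 * 16 ^ Fintype.card σ * c * k0 ^ p * (2 * M + 2) ^ (Fintype.card σ - p) * (D0 + 1) *
      ((2 * M + 2) * (1 + D0)) ^ (Fintype.card σ - 1) * S0 * h0 ≤
      (M + 1) ^ (2 * Fintype.card σ) →
    2 * Nat.card (Rows3 σ k0 (4 ^ e 0) T0 gr U2 U) ≤
      Nat.card {α : Ix σ 2 M 1 e // Sup3 i' i0 h0 α}

/-- **SIE3** (the conditions can be solved). Hypotheses allowed: CARD3, HOUS (`Helper77.SGC`).
PROOF. Adapt SIEB (`Pool/Agent/Helper64/VN/SIEB.lean`): `Pool.Agent.Helper68.Ru.siegel` with the rows `Rows3` and the unknowns `{α // Sup3 i' i0 h0 α}` (extend the solution by `0`). The entry in the row `(l, μ, t, u2, u)` at `α` is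
`E * ∑_(g1, g2 ∈ box (2M)) Gam S M (e 0) (r t) (l 0) (μ 0) g1 (α.1 0) * Gam S M (e 1) (ρ u2) (l 1) (μ 1) g2 (α.1 1) * ν u (g1 + g2)`, `E = (D * d)^(m')`, `m'` a fixed exponent `≤ C sqB e` which clears the denominators (`D^(4^(e j) (M+1))` for each of the `|σ|` factors `S` in both `Gam`, `d^(N0 M (e 0) + 1)` for `r`; `ρ`, `ν` are integral).
Houses: `house (E1 * Gam .. (r t) ..) ≤ b0^(C sqB e)` as in SIEB (HOUS; `E1` its part of `E`); `Gam S M (e 1) (ρ u2) ..` is a sum over `s ∈ box (N0 M (e 1))` of `ρ u2 s` (house `≤ exp H`) times `∏_i S ..` (`house (D^(..) ∏ S) ≤ b0^(C sqB e)` by HOUS); `house (ν) ≤ exp H`. So the entries are integral of house `≤ exp (C1 (sqB e + H))`.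
`#unknowns ≤ #Ix ≤ exp (C2 sqB e)`. The set of unknowns is not empty because `2 rows ≤ #unknowns`; if there are no rows it is still not empty: `l = m = 0` everywhere satisfies `Sup3` (`4^(e 1) > 0`). -/
def SIE3 : Prop :=
  ∀ (K : Type) [Field K] [NumberField K] (σ : Type) [Fintype σ] [DecidableEq σ]
    (W : σ → Affine K) (B B' : AbsoluteValue K ℝ → ℝ) (D d c : ℕ), (∀ v, 1 ≤ B v) →
    (∀ v, 1 ≤ B' v) → 0 < D → 0 < d → ∀ (J : Type) (f : J → MvPolynomial σ K)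
    (Df M k0 p D0 h0 S0 : ℕ) (i' i0 : σ), i0 ≠ i' → 1 ≤ h0 → p ≤ Fintype.card σ →
    2 * 16 ^ Fintype.card σ * c * k0 ^ p * (2 * M + 2) ^ (Fintype.card σ - p) * (D0 + 1) *
      ((2 * M + 2) * (1 + D0)) ^ (Fintype.card σ - 1) * S0 * h0 ≤
      (M + 1) ^ (2 * Fintype.card σ) →
    ∃ C : ℝ, 0 ≤ C ∧ ∀ (e : Fin 2 → ℕ) (S : σ → ℕ → Bool → Fin 2 → ℕ → ℕ → ℕ → ℕ → K)
      (T0 : Type) [Fintype T0] (gr : T0 → ℕ) (E : T0 → MvPolynomial σ K)
      (r : T0 → (σ → ℕ) → K) (U2 U : Type) [Fintype U2] [Fintype U]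
      (ρ : U2 → (σ → ℕ) → K) (ν : U → (σ → ℕ) → K) (x0 : σ → K) (g a0 : MvPolynomial σ K)
      (H : ℝ), ArS W B D M S → CenR f Df p c d B' (N0 M (e 0)) T0 gr E r →
      Fintype.card U2 ≤ (D0 + 1) * (N0 M (e 1) * (1 + D0) + 1) ^ (Fintype.card σ - 1) →
      Fintype.card U ≤ S0 → 0 ≤ H → RedD x0 (4 * M) ν H → RedG g a0 (N0 M (e 1)) ρ H →
      ∃ cc : Ix σ 2 M 1 e → K, cc ≠ 0 ∧ (∀ α, IsIntegral ℤ (cc α)) ∧
        (∀ α, NumberField.house (cc α) ≤ Real.exp (C * (sqB e + H))) ∧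
        (∀ α, ¬ Sup3 i' i0 h0 α → cc α = 0) ∧ Cond3 S M k0 e T0 gr r U2 U ρ ν cc

/-- **VAN3** (a bad index in the block `0` kills the sum over the block `1`). No hypotheses.
PROOF. Put `G (s, k) := ∑_α c α ∑_(g1, g2 ∈ box (2M), g1 + g2 = k) Gam S M (e 0) (r 0 (t 0)) (lam 0) (μ 0) g1 (α.1 0) * ∏_i S i (e 1) (lam 1 i) (μ 1 i) (s i) (g2 i) (α.1 1 i).1 (α.1 1 i).2`, `s ∈ box (N0 M (e 1))`, `k ∈ box (4M)`.
`Cond3` (for `l = lam`, `μ`, `t 0`) says `∑_s ∑_k ρ u2 s * ν u k * G (s, k) = 0` for all `u2`, `u` (definition of `Gam`, exchange of finite sums). For fixed `u2`, `RedD.red` gives `∑_k (∑_s ρ u2 s G (s, k)) ∏ x0^k = 0`, so `∑_s ρ u2 s * G' s = 0` with `G' s := ∑_k G (s, k) ∏ x0^k`.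
`RedG.red` (the ring `A`, the point `X1`): `∑_s algebraMap (G' s) * ∏ X1^s = 0`. Finally `BrB S 2 M 1 e T r c x0 lam μ (update t 1 t1) = ∑_s r 1 t1 s * G' s` (`δ = 1`: the factor `∏ x0^(α.2)` is `1`; the product over `j : Fin 2` is the product of two sums; expand `Gam .. (r 1 t1)`), and `∑_(t1) aeval X1 (E 1 t1) * algebraMap (∑_s r 1 t1 s * G' s) =
∑_s algebraMap (G' s) * ∏ X1^s` by `CenR.exp` of the block `1` (`aeval X1` of it). Compare VANB (`Pool/Agent/Helper57/VN/VANB.lean`) and BLKX (`Pool/Agent/Helper68/VN/BLKX.lean`). -/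
def VAN3 : Prop :=
  ∀ (K : Type) [Field K] [NumberField K] (σ : Type) [Fintype σ] [DecidableEq σ]
    (B' : AbsoluteValue K ℝ → ℝ) (d c : ℕ) (J : Type) (f : J → MvPolynomial σ K)
    (Df M k0 p : ℕ) (e : Fin 2 → ℕ) (S : σ → ℕ → Bool → Fin 2 → ℕ → ℕ → ℕ → ℕ → K)
    (T : Fin 2 → Type) [∀ j, Fintype (T j)] (gr : ∀ j, T j → ℕ)
    (E : ∀ j, T j → MvPolynomial σ K) (r : ∀ j, T j → (σ → ℕ) → K) (U2 U : Type)
    (ρ : U2 → (σ → ℕ) → K) (ν : U → (σ → ℕ) → K) (x0 : σ → K) (g a0 : MvPolynomial σ K)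
    (H H' : ℝ), CenR f Df p c d B' (N0 M (e 1)) (T 1) (gr 1) (E 1) (r 1) →
    RedD x0 (4 * M) ν H → RedG g a0 (N0 M (e 1)) ρ H' →
    ∀ cc : Ix σ 2 M 1 e → K, Cond3 S M k0 e (T 0) (gr 0) (r 0) U2 U ρ ν cc →
    ∀ (A : Type) [CommRing A] [Algebra K A] (X1 : σ → A), aeval X1 g = 0 →
      (∀ y : A, aeval X1 a0 * y = 0 → y = 0) →
      ∀ (lam : Fin 2 → σ → Bool) (μ : Fin 2 → σ → Fin 2) (t : ∀ j, T j),
      gr 0 (t 0) < k0 * 4 ^ e 0 →
      ∑ t1 : T 1, aeval X1 (E 1 t1) *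
        algebraMap K A (BrB S 2 M 1 e T r cc x0 lam μ (Function.update t 1 t1)) = 0

/-- **KEY3** (the key inequality). Hypotheses allowed: EXPB, VAN3, BRNB, CNTB, NFB.
PROOF. Adapt KEYB (`Pool/Agent/Helper9/VN/KEYB.lean`) with `n = 2`, `δ = 1`. EXPB. Split the sum over `t : ∀ j, T j` into the sum over `t 0` and `t 1` (`piFinTwoEquiv`, or sum over all `t` grouped by `t 0`). For fixed `μ` and a bad `t 0` (`gr 0 (t 0) < k0 q_0`) the sum over `t 1` is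
`(factor of the block 0) * (∏_i (Ψ_1i Ψ0_i)^(μ_1i)) * ∑_(t1) aeval (X 1) (E 1 t1) * algebraMap (BrB ..) = 0` by VAN3. So only the `t` with `gr 0 (t 0) ≥ k0 q_0` remain, and each of their terms is bounded as in KEYB with `ρ_0^(gr) ≤ ρ^(k0 q_0)` and `ρ_1 = 1` (`CenR.nrm` for the block `1` with `ρ := 1`: its hypothesis is `N (aeval (X 1) (f k)) (1 * ∏ a^D)`).
`keyV v M 1 k0 e a ![ρ, 1] x0`: the factor `![ρ,1] 1 ^ (..) = 1`. Everything else as in KEYB. -/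
def KEY3 : Prop :=
  ∀ (K : Type) [Field K] [NumberField K] (σ : Type) [Fintype σ] [DecidableEq σ]
    (W : σ → Affine K) (B B' : AbsoluteValue K ℝ → ℝ) (D d c : ℕ), PlC B → PlC B' →
    ∀ (J : Type) (f : J → MvPolynomial σ K) (Df M k0 p : ℕ), 1 ≤ M →
    ∃ Bk : AbsoluteValue K ℝ → ℝ, PlC Bk ∧
    ∀ (e : Fin 2 → ℕ) (S : σ → ℕ → Bool → Fin 2 → ℕ → ℕ → ℕ → ℕ → K) (T : Fin 2 → Type)
      [∀ j, Fintype (T j)] (gr : ∀ j, T j → ℕ) (E : ∀ j, T j → MvPolynomial σ K)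
      (r : ∀ j, T j → (σ → ℕ) → K) (U2 U : Type) (ρ : U2 → (σ → ℕ) → K)
      (ν : U → (σ → ℕ) → K) (x0 ψ0 : σ → K) (g a0 : MvPolynomial σ K) (H H' : ℝ),
      ArS W B D M S → (∀ j, CenR f Df p c d B' (N0 M (e j)) (T j) (gr j) (E j) (r j)) →
      RedD x0 (4 * M) ν H → RedG g a0 (N0 M (e 1)) ρ H' →
      ∀ cc : Ix σ 2 M 1 e → K, Cond3 S M k0 e (T 0) (gr 0) (r 0) U2 U ρ ν cc →
        KeyB3 W f Df M k0 g a0 x0 ψ0 e cc Bk

/-- **AUX3**: the auxiliary function. From ARRB, SIE3, KEY3 and the centre data. -/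
def AUX3 : Prop :=
  ∀ (K : Type) [Field K] [NumberField K] (σ : Type) [Fintype σ] [DecidableEq σ]
    (W : σ → Affine K) (J : Type) (f : J → MvPolynomial σ K) (Df p c d : ℕ)
    (B' : AbsoluteValue K ℝ → ℝ), 0 < d → PlC B' → p ≤ Fintype.card σ →
    (∀ N : ℕ, ∃ (T : Type) (_ : Fintype T) (gr : T → ℕ) (E : T → MvPolynomial σ K)
        (r : T → (σ → ℕ) → K), CenR f Df p c d B' N T gr E r) →
    ∀ (M k0 D0 h0 S0 : ℕ) (i' i0 : σ), i0 ≠ i' → 1 ≤ M → 1 ≤ h0 →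
    2 * 16 ^ Fintype.card σ * c * k0 ^ p * (2 * M + 2) ^ (Fintype.card σ - p) * (D0 + 1) *
      ((2 * M + 2) * (1 + D0)) ^ (Fintype.card σ - 1) * S0 * h0 ≤
      (M + 1) ^ (2 * Fintype.card σ) →
    ∃ (C : ℝ) (Bk : AbsoluteValue K ℝ → ℝ), 0 ≤ C ∧ PlC Bk ∧
      ∀ (e : Fin 2 → ℕ) (U2 U : Type) [Fintype U2] [Fintype U] (ρ : U2 → (σ → ℕ) → K)
        (ν : U → (σ → ℕ) → K) (x0 ψ0 : σ → K) (g a0 : MvPolynomial σ K) (H : ℝ),
        Fintype.card U2 ≤ (D0 + 1) * (N0 M (e 1) * (1 + D0) + 1) ^ (Fintype.card σ - 1) →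
        Fintype.card U ≤ S0 → 0 ≤ H → RedD x0 (4 * M) ν H → RedG g a0 (N0 M (e 1)) ρ H →
        ∃ cc : Ix σ 2 M 1 e → K, cc ≠ 0 ∧ (∀ α, IsIntegral ℤ (cc α)) ∧
          (∀ α, NumberField.house (cc α) ≤ Real.exp (C * (sqB e + H))) ∧
          (∀ α, ¬ Sup3 i' i0 h0 α → cc α = 0) ∧ KeyB3 W f Df M k0 g a0 x0 ψ0 e cc Bk

theorem aux3 (hA : ARRB) (hS : SIE3) (hK : KEY3) : AUX3 := by
  intro K _ _ σ _ _ W J f Df p c d B' hd hB' hp hcen M k0 D0 h0 S0 i' i0 hi hM hh hcount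
  obtain ⟨B, D, hB, hD, hA⟩ := hA K σ W
  obtain ⟨S, hS'⟩ := hA M
  obtain ⟨C, hC, hSi⟩ := hS K σ W B B' D d c (fun v => hB.one_le v) (fun v => hB'.one_le v) hD hd J f
    Df M k0 p D0 h0 S0 i' i0 hi hh hp hcount
  obtain ⟨Bk, hBk, hKk⟩ := hK K σ W B B' D d c hB hB' J f Df M k0 p hM
  refine ⟨C, Bk, hC, hBk, fun e U2 U _ _ ρ ν x0 ψ0 g a0 H hU2 hU hH hred hredg => ?_⟩
  choose T hT gr E r hr using hcen
  obtain ⟨cc, h0, hi, hh, hs, hc⟩ := hSi e S (T (N0 M (e 0))) (gr (N0 M (e 0)))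
    (E (N0 M (e 0))) (r (N0 M (e 0))) U2 U ρ ν x0 g a0 H hS' (hr _) hU2 hU hH hred hredg
  exact ⟨cc, h0, hi, hh, hs, hKk e S (fun j => T (N0 M (e j))) (fun j => gr (N0 M (e j)))
    (fun j => E (N0 M (e j))) (fun j => r (N0 M (e j))) U2 U ρ ν x0 ψ0 g a0 H H hS'
    (fun j => hr _) hred hredg cc hc⟩

end

end Pool.Agent.Helper68.T3
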